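import Pool.Agent.K3h89.SX.Stm

/-! Brick MOM: few `k ≤ N` are such that `a + W k` has many prime factors between `log N` and `N ^ (1/4)`.

Author: helper42. High moments over the blocks `(P, P ^ 2]`, `P = (log N) ^ (2 ^ j)`. -/

set_option autoImplicit false

open Finset

namespace Pool.Agent.K3h89.SX.Mom

/-- weighted number of the ordered `r`-tuples of distinct elements -/
noncomputable def T : ℕ → Finset ℕ → ℝ
  | 0, _ => 1
  | r + 1, A => ∑ p ∈ A, (1 / (p : ℝ)) * T r (A.erase p)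

lemma T_nonneg (r : ℕ) (A : Finset ℕ) : 0 ≤ T r A := by
  induction r generalizing A with
  | zero => simp [T]
  | succ r ih =>
    rw [T]
    exact Finset.sum_nonneg fun p _ => mul_nonneg (by positivity) (ih _)

/-- the sum of the reciprocals -/
noncomputable def X (A : Finset ℕ) : ℝ := ∑ p ∈ A, 1 / (p : ℝ)

lemma T_lower {P : ℝ} (hP : 0 < P) (r : ℕ) (A : Finset ℕ) (hA : ∀ p ∈ A, P ≤ (p : ℝ))
    (h : r / P ≤ X A) : (X A - r / P) ^ r ≤ T r A := by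
  induction r generalizing A with
  | zero => simp [T]
  | succ r ih =>
    rw [T]
    have h0 : 0 ≤ X A - ((r + 1 : ℕ) : ℝ) / P := by linarith
    have hterm : ∀ p ∈ A, (1 / (p : ℝ)) * (X A - ((r + 1 : ℕ) : ℝ) / P) ^ r ≤
        (1 / (p : ℝ)) * T r (A.erase p) := by
      intro p hp
      refine mul_le_mul_of_nonneg_left ?_ (by positivity)
      have h1 : X (A.erase p) = X A - 1 / (p : ℝ) := by
        unfold X
        rw [← Finset.add_sum_erase A _ hp]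
        ring
      have h2 : 1 / (p : ℝ) ≤ 1 / P := one_div_le_one_div_of_le hP (hA p hp)
      have h3 : ((r + 1 : ℕ) : ℝ) / P = r / P + 1 / P := by push_cast; ring
      have h4 : X A - ((r + 1 : ℕ) : ℝ) / P ≤ X (A.erase p) - r / P := by
        rw [h1, h3]; linarith
      refine le_trans (pow_le_pow_left₀ h0 h4 r) (ih (A.erase p)
        (fun q hq => hA q (Finset.mem_of_mem_erase hq)) ?_)
      linarith
    refine le_trans ?_ (Finset.sum_le_sum hterm)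
    rw [← Finset.sum_mul]
    have h5 : X A - ((r + 1 : ℕ) : ℝ) / P ≤ X A := by
      have : 0 ≤ ((r + 1 : ℕ) : ℝ) / P := by positivity
      linarith
    rw [pow_succ, mul_comm]
    exact mul_le_mul_of_nonneg_right h5 (pow_nonneg h0 r)

/-- the divisors in `Q` of `a + W k` -/
def Dv (Q : Finset ℕ) (a : ℤ) (W k : ℕ) : Finset ℕ := Q.filter (fun p : ℕ => (p : ℤ) ∣ a + W * k)

lemma Dv_erase (Q : Finset ℕ) (a : ℤ) (W k p : ℕ) : (Dv Q a W k).erase p = Dv (Q.erase p) a W k := by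
  unfold Dv
  ext q
  simp only [Finset.mem_erase, Finset.mem_filter]
  tauto

lemma count_class {N d W : ℕ} (a : ℤ) (hcop : Nat.Coprime d W) :
    ((Icc 1 N).filter (fun k : ℕ => (d : ℤ) ∣ a + W * k)).card ≤ N / d + 1 := by
  rw [← Finset.card_range (N / d + 1)]
  refine Finset.card_le_card_of_injOn (fun k => k / d) ?_ ?_
  · intro k hk
    have hk' := (Finset.mem_filter.1 (Finset.mem_coe.1 hk)).1
    rw [Finset.mem_Icc] at hk'
    rw [Finset.mem_coe, Finset.mem_range]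
    exact Nat.lt_succ_of_le (Nat.div_le_div_right hk'.2)
  · intro k hk l hl hkl
    have h1 := (Finset.mem_filter.1 (Finset.mem_coe.1 hk)).2
    have h2 := (Finset.mem_filter.1 (Finset.mem_coe.1 hl)).2
    have h3 : (d : ℤ) ∣ W * ((k : ℤ) - l) := by
      have := dvd_sub h1 h2
      have e : a + (W : ℤ) * k - (a + W * l) = W * ((k : ℤ) - l) := by ring
      rwa [e] at this
    have h4 : IsCoprime (d : ℤ) (W : ℤ) := Nat.isCoprime_iff_coprime.2 hcop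
    have h5 : (d : ℤ) ∣ (k : ℤ) - l := h4.dvd_of_dvd_mul_left h3
    have h6 : l ≡ k [MOD d] := (Nat.modEq_iff_dvd).2 h5
    have h7 : l % d = k % d := h6
    have h8 : k / d = l / d := hkl
    rw [← Nat.div_add_mod k d, ← Nat.div_add_mod l d, h8, h7]

lemma T_upper (a : ℤ) (W N M : ℕ) (r : ℕ) (Q : Finset ℕ) (hQ : ∀ p ∈ Q, p.Prime ∧ ¬ p ∣ W ∧ p ≤ M)
    (d : ℕ) (hd : 0 < d) (hcop : Nat.Coprime d W) (hQd : ∀ p ∈ Q, ¬ p ∣ d) (hdM : d * M ^ r ≤ N) :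
    ∑ k ∈ (Icc 1 N).filter (fun k : ℕ => (d : ℤ) ∣ a + W * k), T r (Dv Q a W k) ≤
      (∑ p ∈ Q, 1 / (p : ℝ) ^ 2) ^ r * (2 * N / d) := by
  induction r generalizing Q d with
  | zero =>
    simp only [T, Finset.sum_const, nsmul_eq_mul, mul_one, pow_zero, one_mul]
    rw [pow_zero, mul_one] at hdM
    have h1 := count_class (N := N) a hcop
    have h2 : (((Icc 1 N).filter (fun k : ℕ => (d : ℤ) ∣ a + W * k)).card : ℝ) ≤ (N / d : ℕ) + 1 := by
      exact_mod_cast h1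
    have hd' : (0 : ℝ) < d := by exact_mod_cast hd
    have h3 : ((N / d : ℕ) : ℝ) ≤ (N : ℝ) / d := Nat.cast_div_le
    have h4 : (1 : ℝ) ≤ (N : ℝ) / d := by
      rw [le_div_iff₀ hd', one_mul]
      exact_mod_cast hdM
    calc (((Icc 1 N).filter (fun k : ℕ => (d : ℤ) ∣ a + W * k)).card : ℝ)
        ≤ (N / d : ℕ) + 1 := h2
      _ ≤ (N : ℝ) / d + (N : ℝ) / d := add_le_add h3 h4
      _ = 2 * N / d := by ring
  | succ r ih =>
    have hstep : ∑ k ∈ (Icc 1 N).filter (fun k : ℕ => (d : ℤ) ∣ a + W * k), T (r + 1) (Dv Q a W k) =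
        ∑ p ∈ Q, (1 / (p : ℝ)) * ∑ k ∈ (Icc 1 N).filter (fun k : ℕ => ((d * p : ℕ) : ℤ) ∣ a + W * k),
          T r (Dv (Q.erase p) a W k) := by
      have e1 : ∀ k, T (r + 1) (Dv Q a W k) = ∑ p ∈ Q, if (p : ℤ) ∣ a + W * k then
          (1 / (p : ℝ)) * T r (Dv (Q.erase p) a W k) else 0 := by
        intro k
        rw [T, ← Finset.sum_filter]
        exact Finset.sum_congr rfl fun p _ => by rw [Dv_erase]
      simp only [e1]
      rw [Finset.sum_comm]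
      refine Finset.sum_congr rfl fun p hp => ?_
      rw [Finset.mul_sum, ← Finset.sum_filter, Finset.filter_filter]
      refine Finset.sum_congr ?_ fun _ _ => rfl
      refine Finset.filter_congr fun k _ => ?_
      have hcop' : IsCoprime (d : ℤ) (p : ℤ) := by
        rw [Nat.isCoprime_iff_coprime, Nat.coprime_comm, (hQ p hp).1.coprime_iff_not_dvd]
        exact hQd p hp
      constructor
      · rintro ⟨h1, h2⟩
        rw [Nat.cast_mul]
        exact hcop'.mul_dvd h1 h2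
      · intro h
        rw [Nat.cast_mul] at h
        exact ⟨dvd_trans (Dvd.intro _ rfl) h, dvd_trans (Dvd.intro_left _ rfl) h⟩
    rw [hstep]
    have hle : ∀ p ∈ Q, (1 / (p : ℝ)) * ∑ k ∈ (Icc 1 N).filter
        (fun k : ℕ => ((d * p : ℕ) : ℤ) ∣ a + W * k), T r (Dv (Q.erase p) a W k) ≤
        (1 / (p : ℝ) ^ 2) * ((∑ q ∈ Q, 1 / (q : ℝ) ^ 2) ^ r * (2 * N / d)) := by
      intro p hp
      obtain ⟨hp1, hp2, hp3⟩ := hQ p hp
      have hp0 : (0 : ℝ) < p := by exact_mod_cast hp1.pos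
      have hd' : (0 : ℝ) < d := by exact_mod_cast hd
      have h1 := ih (Q.erase p) (fun q hq => hQ q (Finset.mem_of_mem_erase hq)) (d * p)
        (Nat.mul_pos hd hp1.pos) (Nat.Coprime.mul_left hcop ((hp1.coprime_iff_not_dvd).2 hp2))
        (fun q hq hdvd => by
          have hq' := Finset.mem_erase.1 hq
          rcases ((hQ q hq'.2).1.dvd_mul).1 hdvd with h | h
          · exact hQd q hq'.2 h
          · exact hq'.1 ((Nat.prime_dvd_prime_iff_eq (hQ q hq'.2).1 hp1).1 h))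
        (le_trans (by
          rw [pow_succ, mul_assoc, mul_comm (M ^ r) M]
          exact Nat.mul_le_mul_left d (Nat.mul_le_mul_right _ hp3)) hdM)
      have h2 : (∑ q ∈ Q.erase p, 1 / (q : ℝ) ^ 2) ^ r ≤ (∑ q ∈ Q, 1 / (q : ℝ) ^ 2) ^ r := by
        refine pow_le_pow_left₀ (Finset.sum_nonneg fun q _ => by positivity) ?_ r
        exact Finset.sum_le_sum_of_subset_of_nonneg (Finset.erase_subset _ _)
          fun q _ _ => by positivity
      calc (1 / (p : ℝ)) * ∑ k ∈ (Icc 1 N).filter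
              (fun k : ℕ => ((d * p : ℕ) : ℤ) ∣ a + W * k), T r (Dv (Q.erase p) a W k)
          ≤ (1 / (p : ℝ)) * ((∑ q ∈ Q.erase p, 1 / (q : ℝ) ^ 2) ^ r * (2 * N / ((d * p : ℕ) : ℝ))) :=
            mul_le_mul_of_nonneg_left h1 (by positivity)
        _ ≤ (1 / (p : ℝ)) * ((∑ q ∈ Q, 1 / (q : ℝ) ^ 2) ^ r * (2 * N / ((d * p : ℕ) : ℝ))) := by
            refine mul_le_mul_of_nonneg_left ?_ (by positivity)
            exact mul_le_mul_of_nonneg_right h2 (by positivity)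
        _ = (1 / (p : ℝ) ^ 2) * ((∑ q ∈ Q, 1 / (q : ℝ) ^ 2) ^ r * (2 * N / d)) := by
            push_cast
            field_simp
    refine le_trans (Finset.sum_le_sum hle) ?_
    rw [← Finset.sum_mul]
    exact le_of_eq (by ring)

/-- sums of the reciprocals of the squares -/
lemma sum_sq_le {P : ℝ} (hP : 2 ≤ P) (Q : Finset ℕ) (hQ : ∀ p ∈ Q, P < (p : ℝ)) :
    ∑ p ∈ Q, 1 / (p : ℝ) ^ 2 ≤ 2 / P := by
  have hm : 2 ≤ ⌊P⌋₊ := Nat.le_floor (by exact_mod_cast hP)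
  have hPp : 0 < P := by linarith
  obtain ⟨B, hB⟩ : ∃ B, ∀ p ∈ Q, p < B := ⟨Q.sup id + 1, fun p hp =>
    Nat.lt_succ_of_le (Finset.le_sup (f := id) hp)⟩
  have hsub : Q ⊆ Finset.Ico (⌊P⌋₊ + 1) (max B (⌊P⌋₊ + 1)) := by
    intro p hp
    rw [Finset.mem_Ico]
    refine ⟨?_, lt_of_lt_of_le (hB p hp) (le_max_left _ _)⟩
    exact Nat.succ_le_of_lt ((Nat.floor_lt hPp.le).2 (hQ p hp))
  have hgen : ∀ n : ℕ, ⌊P⌋₊ + 1 ≤ n →
      ∑ p ∈ Finset.Ico (⌊P⌋₊ + 1) n, 1 / (p : ℝ) ^ 2 ≤ 1 / (⌊P⌋₊ : ℝ) - 1 / ((n : ℝ) - 1) := by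
    intro n hn
    induction n, hn using Nat.le_induction with
    | base => simp
    | succ n hn ih =>
      rw [Finset.sum_Ico_succ_top hn]
      have hn2 : (3 : ℝ) ≤ n := by
        have : 3 ≤ n := by omega
        exact_mod_cast this
      have h1 : 1 / (n : ℝ) ^ 2 ≤ 1 / ((n : ℝ) - 1) - 1 / (((n + 1 : ℕ) : ℝ) - 1) := by
        push_cast
        rw [add_sub_cancel_right, div_sub_div _ _ (by linarith) (by linarith),
          div_le_div_iff₀ (by positivity) (by nlinarith)]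
        nlinarith
      linarith
  have h2 := hgen (max B (⌊P⌋₊ + 1)) (le_max_right _ _)
  have h3 : (0 : ℝ) ≤ 1 / (((max B (⌊P⌋₊ + 1) : ℕ) : ℝ) - 1) := by
    have : (1 : ℝ) ≤ ((max B (⌊P⌋₊ + 1) : ℕ) : ℝ) := by
      have : 1 ≤ max B (⌊P⌋₊ + 1) := le_trans (by omega) (le_max_right _ _)
      exact_mod_cast this
    exact div_nonneg zero_le_one (by linarith)
  have h4 : ∑ p ∈ Q, 1 / (p : ℝ) ^ 2 ≤ 1 / (⌊P⌋₊ : ℝ) :=
    le_trans (Finset.sum_le_sum_of_subset_of_nonneg hsub fun q _ _ => by positivity) (by linarith)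
  refine h4.trans ?_
  have h5 : P < ⌊P⌋₊ + 1 := Nat.lt_floor_add_one P
  have h6 : (2 : ℝ) ≤ ⌊P⌋₊ := by exact_mod_cast hm
  rw [div_le_div_iff₀ (by linarith) hPp]
  linarith

/-- the block of the primes in `(P, P ^ 2]` -/
noncomputable def Bl (W z : ℕ) (P : ℝ) : Finset ℕ := by
  classical
  exact (Icc 1 z).filter (fun p : ℕ => p.Prime ∧ P < p ∧ (p : ℝ) ≤ P ^ 2 ∧ ¬ p ∣ W)

lemma mem_Bl {W z : ℕ} {P : ℝ} {p : ℕ} : p ∈ Bl W z P ↔
    (1 ≤ p ∧ p ≤ z) ∧ p.Prime ∧ P < p ∧ (p : ℝ) ≤ P ^ 2 ∧ ¬ p ∣ W := by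
  unfold Bl
  rw [Finset.mem_filter, Finset.mem_Icc]

open Classical in
/-- the bad `k` of one block -/
lemma block {ε b : ℝ} (hε : 0 < ε) (hb : 1 + 8 / ε ≤ b) (hb2 : 2 ≤ b) (a : ℤ) {W N z : ℕ}
    (hN : 1 ≤ N) (hz : z ^ 4 ≤ N) (hL : Real.log N = b ^ 10) (hLL : 4 / ε ≤ Real.log (b ^ 10))
    (j : ℕ) :
    (((Icc 1 N).filter (fun k : ℕ => ε / 2 / 2 ^ j <
      X (Dv (Bl W z ((b ^ 2 ^ j) ^ 10)) a W k))).card : ℝ) ≤ 2 * (N : ℝ) ^ (53 / 80 : ℝ) := by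
  obtain ⟨c, hc⟩ : ∃ c : ℝ, c = b ^ 2 ^ j := ⟨_, rfl⟩
  obtain ⟨P, hP⟩ : ∃ P : ℝ, P = c ^ 10 := ⟨_, rfl⟩
  rw [← hc, ← hP]
  obtain ⟨Q, hQ⟩ : ∃ Q : Finset ℕ, Q = Bl W z P := ⟨_, rfl⟩
  rw [← hQ]
  have hNr : (1 : ℝ) ≤ N := by exact_mod_cast hN
  have hpos : 0 ≤ 2 * (N : ℝ) ^ (53 / 80 : ℝ) := by positivity
  have hj1 : (1 : ℝ) ≤ 2 ^ j := one_le_pow₀ (by norm_num)
  have hb1 : 1 ≤ b := by linarith
  have hcb : b ≤ c := by
    rw [hc]
    calc b = b ^ 1 := (pow_one b).symm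
      _ ≤ b ^ 2 ^ j := pow_le_pow_right₀ hb1 (Nat.one_le_two_pow)
  have hc1 : 1 ≤ c := hb1.trans hcb
  have hc0 : 0 < c := by linarith
  have hPb : b ^ 10 ≤ P := by rw [hP]; exact pow_le_pow_left₀ (by linarith) hcb 10
  have hb10 : (2 : ℝ) ≤ b ^ 10 := by
    calc (2 : ℝ) ≤ b := hb2
      _ = b ^ 1 := (pow_one b).symm
      _ ≤ b ^ 10 := pow_le_pow_right₀ hb1 (by norm_num)
  have hP2 : 2 ≤ P := hb10.trans hPb
  have hP0 : 0 < P := by linarith
  have hcbig : 8 * 2 ^ j / ε ≤ c := by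
    have h1 : 1 + ((2 ^ j : ℕ) : ℝ) * (8 / ε) ≤ (1 + 8 / ε) ^ (2 ^ j) :=
      one_add_mul_le_pow (by have : 0 < 8 / ε := by positivity
                             linarith) _
    have h2 : (1 + 8 / ε) ^ (2 ^ j) ≤ c := by
      rw [hc]
      exact pow_le_pow_left₀ (by positivity) hb _
    push_cast at h1
    have h3 : 8 * (2 : ℝ) ^ j / ε = 2 ^ j * (8 / ε) := by ring
    rw [h3]
    linarith
  by_cases hne : Q.Nonempty
  swap
  · rw [Finset.not_nonempty_iff_eq_empty] at hne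
    rw [Finset.filter_eq_empty_iff.2, Finset.card_empty, Nat.cast_zero]
    · exact hpos
    · intro k _
      have h1 : Dv Q a W k = ∅ := by rw [hne]; rfl
      rw [h1]
      unfold X
      rw [Finset.sum_empty, not_lt]
      positivity
  obtain ⟨M, hM⟩ : ∃ M : ℕ, M = min z ⌊P ^ 2⌋₊ := ⟨_, rfl⟩
  have hQM : ∀ p ∈ Q, p.Prime ∧ ¬ p ∣ W ∧ p ≤ M := by
    intro p hp
    rw [hQ, mem_Bl] at hp
    obtain ⟨⟨_, h1⟩, h2, h3, h4, h5⟩ := hp
    refine ⟨h2, h5, ?_⟩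
    rw [hM, le_min_iff]
    exact ⟨h1, Nat.le_floor h4⟩
  have hQP : ∀ p ∈ Q, P < (p : ℝ) := by
    intro p hp
    rw [hQ, mem_Bl] at hp
    exact hp.2.2.1
  obtain ⟨p₀, hp₀⟩ := hne
  have hMP : P < (M : ℝ) := lt_of_lt_of_le (hQP p₀ hp₀) (by exact_mod_cast (hQM p₀ hp₀).2.2)
  have hM2 : 1 < M := by
    have : (1 : ℝ) < M := by linarith
    exact_mod_cast this
  have hMz : M ≤ z := by rw [hM]; exact min_le_left _ _
  have hMP2 : (M : ℝ) ≤ P ^ 2 := by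
    have h1 : M ≤ ⌊P ^ 2⌋₊ := by rw [hM]; exact min_le_right _ _
    exact le_trans (by exact_mod_cast h1) (Nat.floor_le (by positivity))
  obtain ⟨r, hr⟩ : ∃ r : ℕ, r = Nat.log M N := ⟨_, rfl⟩
  have hr1 : M ^ r ≤ N := by rw [hr]; exact Nat.pow_log_le_self M (by omega)
  have hr2 : N < M ^ (r + 1) := by rw [hr]; exact Nat.lt_pow_succ_log_self hM2 N
  -- the quotient `r / P`
  have hlogM : 0 < Real.log M := Real.log_pos (by exact_mod_cast hM2)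
  have hrlog : (r : ℝ) * Real.log M ≤ b ^ 10 := by
    rw [← hL, ← Real.log_pow]
    have : (0 : ℝ) < (M : ℝ) ^ r := by positivity
    exact Real.log_le_log this (by exact_mod_cast hr1)
  have hlogP : Real.log P = 2 ^ j * Real.log (b ^ 10) := by
    rw [hP, hc, ← pow_mul, mul_comm (2 ^ j) 10, pow_mul, Real.log_pow]
    push_cast
    ring
  have hlogb : 0 < Real.log (b ^ 10) := lt_of_lt_of_le (by positivity) hLL
  have hrP : (r : ℝ) / P ≤ ε / 4 / 2 ^ j := by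
    have h1 : (r : ℝ) * Real.log P ≤ P :=
      le_trans (mul_le_mul_of_nonneg_left (Real.log_le_log hP0 hMP.le) (Nat.cast_nonneg _))
        (hrlog.trans hPb)
    rw [hlogP] at h1
    have h2 : (r : ℝ) * (2 ^ j * (4 / ε)) ≤ P := by
      refine le_trans ?_ h1
      exact mul_le_mul_of_nonneg_left (mul_le_mul_of_nonneg_left hLL (by positivity))
        (Nat.cast_nonneg _)
    rw [div_div, div_le_div_iff₀ hP0 (by positivity)]
    have h3 : (r : ℝ) * (4 * 2 ^ j) = ε * ((r : ℝ) * (2 ^ j * (4 / ε))) := by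
      field_simp
    rw [h3]
    exact mul_le_mul_of_nonneg_left h2 hε.le
  obtain ⟨δ, hδ⟩ : ∃ δ : ℝ, δ = ε / 4 / 2 ^ j := ⟨_, rfl⟩
  have hδ0 : 0 < δ := by rw [hδ]; positivity
  obtain ⟨S, hS⟩ : ∃ S : Finset ℕ, S = (Icc 1 N).filter (fun k : ℕ => ε / 2 / 2 ^ j <
      X (Dv Q a W k)) := ⟨_, rfl⟩
  rw [← hS]
  have hlow : ∀ k ∈ S, δ ^ r ≤ T r (Dv Q a W k) := by
    intro k hk
    rw [hS, Finset.mem_filter] at hk
    have h1 : ε / 2 / 2 ^ j = δ + ε / 4 / 2 ^ j := by rw [hδ]; ring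
    have h2 : (r : ℝ) / P ≤ X (Dv Q a W k) := by
      have := hk.2
      rw [h1] at this
      linarith
    have h3 : δ ≤ X (Dv Q a W k) - r / P := by
      have := hk.2
      rw [h1] at this
      linarith
    refine le_trans (pow_le_pow_left₀ hδ0.le h3 r) (T_lower hP0 r _ (fun p hp => ?_) h2)
    unfold Dv at hp
    exact (hQP p (Finset.mem_filter.1 hp).1).le
  have hup := T_upper a W N M r Q hQM 1 one_pos (Nat.coprime_one_left W)
    (fun p hp h => (hQM p hp).1.one_lt.ne' (Nat.dvd_one.1 h)) (by rw [one_mul]; exact hr1)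
  have hsum : (S.card : ℝ) * δ ^ r ≤ (2 / P) ^ r * (2 * N) := by
    calc (S.card : ℝ) * δ ^ r = ∑ _k ∈ S, δ ^ r := by rw [Finset.sum_const, nsmul_eq_mul]
      _ ≤ ∑ k ∈ S, T r (Dv Q a W k) := Finset.sum_le_sum hlow
      _ ≤ ∑ k ∈ (Icc 1 N).filter (fun k : ℕ => ((1 : ℕ) : ℤ) ∣ a + W * k), T r (Dv Q a W k) := by
          refine Finset.sum_le_sum_of_subset_of_nonneg ?_ fun k _ _ => T_nonneg _ _
          intro k hk
          rw [hS, Finset.mem_filter] at hk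
          rw [Finset.mem_filter]
          exact ⟨hk.1, by rw [Nat.cast_one]; exact one_dvd _⟩
      _ ≤ (∑ p ∈ Q, 1 / (p : ℝ) ^ 2) ^ r * (2 * N / (1 : ℕ)) := hup
      _ ≤ (2 / P) ^ r * (2 * N) := by
          rw [Nat.cast_one, div_one]
          refine mul_le_mul_of_nonneg_right ?_ (by positivity)
          exact pow_le_pow_left₀ (Finset.sum_nonneg fun q _ => by positivity)
            (sum_sq_le hP2 Q hQP) r
  have hsum2 : (S.card : ℝ) * (δ * P / 2) ^ r ≤ 2 * N := by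
    have h1 : (S.card : ℝ) * (δ * P / 2) ^ r = ((S.card : ℝ) * δ ^ r) * (P / 2) ^ r := by
      rw [mul_assoc, ← mul_pow]; congr 2; ring
    have h2 : (2 * N : ℝ) = ((2 / P) ^ r * (2 * N)) * (P / 2) ^ r := by
      have : (2 / P) ^ r * (P / 2) ^ r = 1 := by
        rw [← mul_pow]
        have : 2 / P * (P / 2) = 1 := by field_simp
        rw [this, one_pow]
      rw [mul_right_comm, this, one_mul]
    rw [h1, h2]
    exact mul_le_mul_of_nonneg_right hsum (by positivity)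
  have hδP : c ^ 9 ≤ δ * P / 2 := by
    rw [hδ, hP]
    have h1 : ε / 4 / 2 ^ j * c ^ 10 / 2 = c ^ 9 * (c * (ε / (8 * 2 ^ j))) := by ring
    rw [h1]
    have h2 : 1 ≤ c * (ε / (8 * 2 ^ j)) := by
      have h3 : 8 * 2 ^ j / ε * (ε / (8 * 2 ^ j)) = 1 := by field_simp
      calc (1 : ℝ) = 8 * 2 ^ j / ε * (ε / (8 * 2 ^ j)) := h3.symm
        _ ≤ c * (ε / (8 * 2 ^ j)) := mul_le_mul_of_nonneg_right hcbig (by positivity)
    calc c ^ 9 = c ^ 9 * 1 := (mul_one _).symm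
      _ ≤ _ := mul_le_mul_of_nonneg_left h2 (by positivity)
  have hsum3 : (S.card : ℝ) * (c ^ 9) ^ r ≤ 2 * N :=
    le_trans (mul_le_mul_of_nonneg_left (pow_le_pow_left₀ (by positivity) hδP r)
      (Nat.cast_nonneg _)) hsum2
  have hNM : (N : ℝ) ^ 3 ≤ ((M : ℝ) ^ r) ^ 4 := by
    have h1 : (N : ℝ) ≤ (M : ℝ) ^ r * z := by
      have h2 : N ≤ M ^ r * z := by
        calc N ≤ M ^ (r + 1) := hr2.le
          _ = M ^ r * M := pow_succ _ _
          _ ≤ M ^ r * z := Nat.mul_le_mul_left _ hMz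
      exact_mod_cast h2
    have h3 : (N : ℝ) ^ 4 ≤ ((M : ℝ) ^ r) ^ 4 * N := by
      calc (N : ℝ) ^ 4 ≤ ((M : ℝ) ^ r * z) ^ 4 := pow_le_pow_left₀ (by positivity) h1 4
        _ = ((M : ℝ) ^ r) ^ 4 * (z : ℝ) ^ 4 := mul_pow _ _ _
        _ ≤ ((M : ℝ) ^ r) ^ 4 * N := mul_le_mul_of_nonneg_left (by exact_mod_cast hz) (by positivity)
    have h4 : (N : ℝ) ^ 4 = N ^ 3 * N := by ring
    rw [h4] at h3
    exact le_of_mul_le_mul_right h3 (by linarith)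
  have hx : (N : ℝ) ^ (27 / 80 : ℝ) ≤ (c ^ 9) ^ r := by
    have h1 : (N : ℝ) ^ 27 ≤ ((c ^ 9) ^ r) ^ 80 := by
      calc (N : ℝ) ^ 27 = ((N : ℝ) ^ 3) ^ 9 := by ring
        _ ≤ (((M : ℝ) ^ r) ^ 4) ^ 9 := pow_le_pow_left₀ (by positivity) hNM 9
        _ ≤ (((c ^ 20) ^ r) ^ 4) ^ 9 := by
            refine pow_le_pow_left₀ (by positivity) ?_ 9
            refine pow_le_pow_left₀ (by positivity) ?_ 4
            refine pow_le_pow_left₀ (by positivity) ?_ r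
            calc (M : ℝ) ≤ P ^ 2 := hMP2
              _ = c ^ 20 := by rw [hP]; ring
        _ = ((c ^ 9) ^ r) ^ 80 := by
            rw [← pow_mul, ← pow_mul, ← pow_mul, ← pow_mul, ← pow_mul]
            congr 1
            ring
    have h2 : (N : ℝ) ^ (27 / 80 : ℝ) = ((N : ℝ) ^ 27) ^ (1 / 80 : ℝ) := by
      rw [← Real.rpow_natCast, ← Real.rpow_mul (by positivity)]
      norm_num
    have h3 : ∀ y : ℝ, 0 ≤ y → y = (y ^ 80) ^ (1 / 80 : ℝ) := by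
      intro y hy
      rw [← Real.rpow_natCast, ← Real.rpow_mul hy]
      norm_num
    rw [h2, h3 ((c ^ 9) ^ r) (by positivity)]
    exact Real.rpow_le_rpow (by positivity) h1 (by norm_num)
  have hfin : (S.card : ℝ) * (N : ℝ) ^ (27 / 80 : ℝ) ≤ 2 * N :=
    le_trans (mul_le_mul_of_nonneg_left hx (Nat.cast_nonneg _)) hsum3
  have hN0 : (0 : ℝ) < N := by linarith
  have hsplit : (2 * N : ℝ) = (2 * (N : ℝ) ^ (53 / 80 : ℝ)) * (N : ℝ) ^ (27 / 80 : ℝ) := by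
    rw [mul_assoc, ← Real.rpow_add hN0]
    norm_num
  rw [hsplit] at hfin
  exact le_of_mul_le_mul_right hfin (Real.rpow_pos_of_pos hN0 _)

/-- every prime in the range lies in one of the blocks -/
lemma cover {b : ℝ} (hb2 : 2 ≤ b) {N z p : ℕ} (hz : z ≤ N) (hpz : p ≤ z) (hp : b ^ 10 < (p : ℝ)) :
    ∃ j, j < Nat.log 2 N + 1 ∧ (b ^ 2 ^ j) ^ 10 < (p : ℝ) ∧ (p : ℝ) ≤ ((b ^ 2 ^ j) ^ 10) ^ 2 := by
  classical
  have hb1 : 1 ≤ b := by linarith
  have hJ : (p : ℝ) ≤ (b ^ 2 ^ (Nat.log 2 N + 1)) ^ 10 := by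
    have h1 : N < 2 ^ (Nat.log 2 N + 1) := Nat.lt_pow_succ_log_self (by norm_num) N
    have h2 : ((2 ^ (Nat.log 2 N + 1) : ℕ) : ℝ) ≤ b ^ 2 ^ (Nat.log 2 N + 1) := by
      have h3 : 2 ^ (Nat.log 2 N + 1) < 2 ^ 2 ^ (Nat.log 2 N + 1) := Nat.lt_two_pow_self
      calc ((2 ^ (Nat.log 2 N + 1) : ℕ) : ℝ) ≤ ((2 ^ 2 ^ (Nat.log 2 N + 1) : ℕ) : ℝ) := by
            exact_mod_cast h3.le
        _ = (2 : ℝ) ^ 2 ^ (Nat.log 2 N + 1) := by push_cast; rfl
        _ ≤ b ^ 2 ^ (Nat.log 2 N + 1) := pow_le_pow_left₀ (by norm_num) hb2 _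
    have h4 : (1 : ℝ) ≤ b ^ 2 ^ (Nat.log 2 N + 1) := one_le_pow₀ hb1
    calc (p : ℝ) ≤ ((2 ^ (Nat.log 2 N + 1) : ℕ) : ℝ) := by
          have : p ≤ 2 ^ (Nat.log 2 N + 1) := by omega
          exact_mod_cast this
      _ ≤ b ^ 2 ^ (Nat.log 2 N + 1) := h2
      _ = (b ^ 2 ^ (Nat.log 2 N + 1)) ^ 1 := (pow_one _).symm
      _ ≤ (b ^ 2 ^ (Nat.log 2 N + 1)) ^ 10 := pow_le_pow_right₀ h4 (by norm_num)
  have hex : ∃ j, (p : ℝ) ≤ (b ^ 2 ^ j) ^ 10 := ⟨_, hJ⟩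
  have hm0 : Nat.find hex ≠ 0 := by
    intro h0
    have h1 := Nat.find_spec hex
    rw [h0, pow_zero, pow_one] at h1
    linarith
  have hmJ : Nat.find hex ≤ Nat.log 2 N + 1 := Nat.find_min' hex hJ
  refine ⟨Nat.find hex - 1, by omega, ?_, ?_⟩
  · exact not_le.1 (Nat.find_min hex (by omega))
  · have h1 := Nat.find_spec hex
    have h2 : ((b ^ 2 ^ (Nat.find hex - 1)) ^ 10) ^ 2 = (b ^ 2 ^ Nat.find hex) ^ 10 := by
      have h3 : 2 ^ Nat.find hex = 2 ^ (Nat.find hex - 1) * 2 := by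
        rw [← pow_succ]
        congr 1
        omega
      rw [h3, pow_mul b (2 ^ (Nat.find hex - 1)) 2]
      ring
    rw [h2]
    exact h1

lemma geom_half (ε : ℝ) (hε : 0 < ε) (J : ℕ) : ∑ j ∈ range J, ε / 2 / 2 ^ j ≤ ε := by
  have h : ∀ J : ℕ, ∑ j ∈ range J, ε / 2 / 2 ^ j = ε - ε / 2 ^ J := by
    intro J
    induction J with
    | zero => simp
    | succ J ih =>
      rw [Finset.sum_range_succ, ih, pow_succ]
      field_simp
      ring
  rw [h]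
  have : 0 < ε / 2 ^ J := by positivity
  linarith

open Filter Topology in
lemma large (ε : ℝ) (hε : 0 < ε) : ∃ N₀ : ℕ, 1 ≤ N₀ ∧ ∀ N : ℕ, N₀ ≤ N →
    1 + 8 / ε ≤ Real.log N ^ (1 / 10 : ℝ) ∧ 2 ≤ Real.log N ^ (1 / 10 : ℝ) ∧ 0 ≤ Real.log N ∧
    4 / ε ≤ Real.log (Real.log N) ∧
    ((Nat.log 2 N + 1 : ℕ) : ℝ) * (2 * (N : ℝ) ^ (53 / 80 : ℝ)) ≤ (N : ℝ) ^ (3 / 4 : ℝ) := by
  have hlog : Tendsto (fun N : ℕ => Real.log (N : ℝ)) atTop atTop :=
    Real.tendsto_log_atTop.comp tendsto_natCast_atTop_atTop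
  have h10 : Tendsto (fun N : ℕ => Real.log (N : ℝ) ^ (1 / 10 : ℝ)) atTop atTop :=
    (tendsto_rpow_atTop (by norm_num : (0 : ℝ) < 1 / 10)).comp hlog
  have hll : Tendsto (fun N : ℕ => Real.log (Real.log (N : ℝ))) atTop atTop :=
    Real.tendsto_log_atTop.comp hlog
  have hsmall : ∀ᶠ x : ℝ in atTop, Real.log x ≤ 1 / 8 * x ^ (7 / 80 : ℝ) := by
    have h1 := (isLittleO_log_rpow_atTop (by norm_num : (0 : ℝ) < 7 / 80)).bound
      (by norm_num : (0 : ℝ) < 1 / 8)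
    filter_upwards [h1, eventually_ge_atTop 1] with x hx hx1
    rw [Real.norm_of_nonneg (Real.log_nonneg hx1), Real.norm_of_nonneg (by positivity)] at hx
    exact hx
  have hsmall' : ∀ᶠ N : ℕ in atTop, Real.log (N : ℝ) ≤ 1 / 8 * (N : ℝ) ^ (7 / 80 : ℝ) :=
    tendsto_natCast_atTop_atTop.eventually hsmall
  have h780 : Tendsto (fun N : ℕ => (N : ℝ) ^ (7 / 80 : ℝ)) atTop atTop :=
    (tendsto_rpow_atTop (by norm_num : (0 : ℝ) < 7 / 80)).comp tendsto_natCast_atTop_atTop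
  obtain ⟨N₀, hN₀⟩ := eventually_atTop.1 ((h10.eventually_ge_atTop (1 + 8 / ε)).and
    ((h10.eventually_ge_atTop 2).and ((hlog.eventually_ge_atTop 0).and
      ((hll.eventually_ge_atTop (4 / ε)).and (hsmall'.and (h780.eventually_ge_atTop 4))))))
  refine ⟨max N₀ 1, le_max_right _ _, fun N hN => ?_⟩
  obtain ⟨h1, h2, h3, h4, h5, h6⟩ := hN₀ N (le_trans (le_max_left _ _) hN)
  refine ⟨h1, h2, h3, h4, ?_⟩
  have hN1 : 1 ≤ N := le_trans (le_max_right _ _) hN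
  have hN0 : (0 : ℝ) < N := by exact_mod_cast hN1
  have h7 : ((Nat.log 2 N : ℕ) : ℝ) ≤ 2 * Real.log N := by
    have h8 : (2 : ℕ) ^ (Nat.log 2 N) ≤ N := Nat.pow_log_le_self 2 (by omega)
    have h9 : ((2 : ℝ)) ^ (Nat.log 2 N) ≤ N := by exact_mod_cast h8
    have h10 := Real.log_le_log (by positivity) h9
    rw [Real.log_pow] at h10
    have h11 : (1 / 2 : ℝ) ≤ Real.log 2 := by have := Real.log_two_gt_d9; linarith
    have h12 : (0 : ℝ) ≤ (Nat.log 2 N : ℕ) := Nat.cast_nonneg _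
    nlinarith
  have h8 : ((Nat.log 2 N + 1 : ℕ) : ℝ) * 2 ≤ (N : ℝ) ^ (7 / 80 : ℝ) := by
    push_cast
    linarith
  have h9 : (N : ℝ) ^ (3 / 4 : ℝ) = (N : ℝ) ^ (7 / 80 : ℝ) * (N : ℝ) ^ (53 / 80 : ℝ) := by
    rw [← Real.rpow_add hN0]
    norm_num
  rw [h9, ← mul_assoc]
  exact mul_le_mul_of_nonneg_right h8 (by positivity)

end Pool.Agent.K3h89.SX.Mom

namespace Pool.Agent.K3h89.SX

open Mom

open Classical in
/-- Brick MOM. -/
theorem mom : S_MOM := by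
  intro ε hε
  obtain ⟨N₀, hN₀1, hN₀⟩ := large ε hε
  refine ⟨N₀, fun a W N z hN hz => ?_⟩
  obtain ⟨h1, h2, h3, h4, h5⟩ := hN₀ N hN
  have hN1 : 1 ≤ N := hN₀1.trans hN
  obtain ⟨b, hb⟩ : ∃ b : ℝ, b = Real.log N ^ (1 / 10 : ℝ) := ⟨_, rfl⟩
  have hL : Real.log N = b ^ 10 := by
    rw [hb, ← Real.rpow_natCast, ← Real.rpow_mul h3]
    norm_num
  rw [← hb] at h1 h2
  have hzN : z ≤ N := by
    rcases Nat.eq_zero_or_pos z with h | h
    · omega
    · exact le_trans (le_trans (le_of_eq (pow_one z).symm) (Nat.pow_le_pow_right h (by norm_num))) hz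
  obtain ⟨J, hJ⟩ : ∃ J : ℕ, J = Nat.log 2 N + 1 := ⟨_, rfl⟩
  have hsub : (Icc 1 N).filter (fun k : ℕ => ε < ∑ p ∈ (Icc 1 z).filter (fun p : ℕ =>
      p.Prime ∧ Real.log N < p ∧ ¬ p ∣ W ∧ (p : ℤ) ∣ a + W * k), (1 : ℝ) / p) ⊆
      (range J).biUnion (fun j => (Icc 1 N).filter (fun k : ℕ => ε / 2 / 2 ^ j <
        X (Dv (Bl W z ((b ^ 2 ^ j) ^ 10)) a W k))) := by
    intro k hk
    rw [Finset.mem_filter] at hk
    rw [Finset.mem_biUnion]
    by_contra hcon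
    push Not at hcon
    have hle : ∀ j ∈ range J, X (Dv (Bl W z ((b ^ 2 ^ j) ^ 10)) a W k) ≤ ε / 2 / 2 ^ j := by
      intro j hj
      have := hcon j hj
      rw [Finset.mem_filter, not_and] at this
      exact not_lt.1 (this hk.1)
    obtain ⟨S, hS⟩ : ∃ S : Finset ℕ, S = (Icc 1 z).filter (fun p : ℕ =>
      p.Prime ∧ Real.log N < p ∧ ¬ p ∣ W ∧ (p : ℤ) ∣ a + W * k) := ⟨_, rfl⟩
    have hkS := hk.2
    rw [← hS] at hkS
    have hg : ∀ p : ℕ, ∃ j : ℕ, p ∈ S → j < J ∧ (b ^ 2 ^ j) ^ 10 < (p : ℝ) ∧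
        (p : ℝ) ≤ ((b ^ 2 ^ j) ^ 10) ^ 2 := by
      intro p
      by_cases hp : p ∈ S
      · have hp' := hp
        rw [hS, Finset.mem_filter, Finset.mem_Icc, hL] at hp'
        obtain ⟨j, hj⟩ := cover h2 hzN hp'.1.2 hp'.2.2.1
        exact ⟨j, fun _ => by rw [hJ]; exact hj⟩
      · exact ⟨0, fun h => absurd h hp⟩
    choose g hg using hg
    have hmaps : ∀ p ∈ S, g p ∈ range J := fun p hp => Finset.mem_range.2 (hg p hp).1
    have h6 : ∑ p ∈ S, (1 : ℝ) / p ≤ ∑ j ∈ range J, ε / 2 / 2 ^ j := by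
      rw [← Finset.sum_fiberwise_of_maps_to hmaps]
      refine Finset.sum_le_sum fun j hj => le_trans ?_ (hle j hj)
      unfold X
      refine Finset.sum_le_sum_of_subset_of_nonneg ?_ fun p _ _ => by positivity
      intro p hp
      rw [Finset.mem_filter] at hp
      have hp1 := hg p hp.1
      rw [hp.2] at hp1
      have hp2 := hp.1
      rw [hS, Finset.mem_filter, Finset.mem_Icc] at hp2
      unfold Dv
      rw [Finset.mem_filter, mem_Bl]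
      exact ⟨⟨hp2.1, hp2.2.1, hp1.2.1, hp1.2.2, hp2.2.2.2.1⟩, hp2.2.2.2.2⟩
    have h7 := geom_half ε hε J
    linarith
  calc (((Icc 1 N).filter (fun k : ℕ => ε < ∑ p ∈ (Icc 1 z).filter (fun p : ℕ =>
      p.Prime ∧ Real.log N < p ∧ ¬ p ∣ W ∧ (p : ℤ) ∣ a + W * k), (1 : ℝ) / p)).card : ℝ)
      ≤ (((range J).biUnion (fun j => (Icc 1 N).filter (fun k : ℕ => ε / 2 / 2 ^ j <
        X (Dv (Bl W z ((b ^ 2 ^ j) ^ 10)) a W k)))).card : ℝ) := by
        exact_mod_cast Finset.card_le_card hsub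
    _ ≤ ∑ j ∈ range J, (((Icc 1 N).filter (fun k : ℕ => ε / 2 / 2 ^ j <
        X (Dv (Bl W z ((b ^ 2 ^ j) ^ 10)) a W k))).card : ℝ) := by
        exact_mod_cast Finset.card_biUnion_le
    _ ≤ ∑ _j ∈ range J, 2 * (N : ℝ) ^ (53 / 80 : ℝ) := by
        refine Finset.sum_le_sum fun j _ => ?_
        exact block hε h1 h2 a hN1 hz hL (by rw [← hL]; exact h4) j
    _ = (J : ℝ) * (2 * (N : ℝ) ^ (53 / 80 : ℝ)) := by
        rw [Finset.sum_const, Finset.card_range, nsmul_eq_mul]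
    _ ≤ (N : ℝ) ^ (3 / 4 : ℝ) := by
        rw [hJ]
        exact h5

end Pool.Agent.K3h89.SX
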