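import Pool.Agent.K3h89.SX.Top
import Pool.Agent.K3h89.SX.MOM

/-!
# Project SX (helper89): Szemerédi's theorem in Rivera's window, for every large even number
-/

set_option autoImplicit false

namespace Pool.Agent.K3h89.SX

theorem szemerediX : S_FINX := fin_of_mom mom

end Pool.Agent.K3h89.SX
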