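import Pool.Agent.K3h89.SX.Stm
import Pool.Agent.Y677.RSZ.Eng4

/-! SX brick BADX (helper56): the common prime factors are few for most `j`. -/

set_option autoImplicit false

open Finset

namespace Pool.Agent.K3h89.SX

open Pool.Agent.TH423.SH (PS)
open Pool.Agent.K3h89.SZ (SysP CF)
open Pool.Agent.Y677.RSZ (ev_log)

/-- the primes at least `x` which divide `m` -/
theorem big_primes (T : Finset ℕ) (m : ℕ) (hm : m ≠ 0) (x Lm : ℝ) (hx : 1 < x)
    (hT : ∀ p ∈ T, p.Prime ∧ p ∣ m ∧ x ≤ p) (hL : Real.log m ≤ Lm) :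
    ∑ p ∈ T, (1 : ℝ) / p ≤ Lm / (x * Real.log x) := by
  have hx0 : 0 < x := by linarith
  have hlx : 0 < Real.log x := Real.log_pos hx
  have hsub : T ⊆ m.primeFactors := fun p hp =>
    Nat.mem_primeFactors.2 ⟨(hT p hp).1, (hT p hp).2.1, hm⟩
  have h1 : (T.card : ℝ) * Real.log x ≤ Real.log m := by
    have h2 : ∏ p ∈ T, p ≤ m := by
      apply Nat.le_of_dvd (Nat.pos_of_ne_zero hm)
      exact (Finset.prod_dvd_prod_of_subset _ _ _ hsub).trans (Nat.prod_primeFactors_dvd m)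
    have h3 : x ^ T.card ≤ ∏ p ∈ T, (p : ℝ) := by
      rw [← prod_const]
      exact prod_le_prod (fun _ _ => hx0.le) (fun p hp => (hT p hp).2.2)
    have h4 : x ^ T.card ≤ (m : ℝ) := h3.trans (by rw [← Nat.cast_prod]; exact_mod_cast h2)
    have h5 := Real.log_le_log (by positivity) h4
    rwa [Real.log_pow] at h5
  calc ∑ p ∈ T, (1 : ℝ) / p ≤ ∑ _p ∈ T, 1 / x := by
        apply sum_le_sum
        intro p hp
        exact one_div_le_one_div_of_le hx0 (hT p hp).2.2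
    _ = T.card / x := by rw [sum_const, nsmul_eq_mul]; ring
    _ ≤ Lm / (x * Real.log x) := by
        rw [div_le_div_iff₀ hx0 (by positivity)]
        have h6 : (T.card : ℝ) * Real.log x * x ≤ Lm * x :=
          mul_le_mul_of_nonneg_right (h1.trans hL) hx0.le
        linarith

theorem sum_un (s t : Finset ℕ) :
    ∑ p ∈ s ∪ t, (1 : ℝ) / p ≤ ∑ p ∈ s, (1 : ℝ) / p + ∑ p ∈ t, (1 : ℝ) / p := by
  have h1 := sum_union_inter (s₁ := s) (s₂ := t) (f := fun p : ℕ => (1 : ℝ) / p)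
  have h2 : 0 ≤ ∑ p ∈ s ∩ t, (1 : ℝ) / p := sum_nonneg fun _ _ => by positivity
  linarith

/-- (BADX) -/
theorem badX (h1 : S_MOM) (h2 : S_SYSX) : S_BADX := by
  classical
  intro B ε hε
  obtain ⟨N₀, hMOM⟩ := h1 (ε / 4) (by positivity)
  have hlog : Filter.Tendsto (fun H : ℕ => Real.log H) Filter.atTop Filter.atTop :=
    Real.tendsto_log_atTop.comp tendsto_natCast_atTop_atTop
  obtain ⟨H₀, hH₀⟩ := Filter.eventually_atTop.1 (((((hlog.eventually_ge_atTop
    (Real.exp (Real.exp (4 / ε)))).and (hlog.eventually_ge_atTop (N₀ : ℝ))).and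
    ((hlog.eventually_ge_atTop ((2 : ℝ) ^ 20)).and (hlog.eventually_ge_atTop (48 / ε)))).and
    (ev_log (2 * B) 2 1 one_pos)).and (Filter.eventually_ge_atTop (5 : ℕ)))
  refine ⟨H₀, ?_⟩
  intro H hH n hHn hnH W N hW hWB hlN hNB hpW
  obtain ⟨⟨⟨⟨e1, e2⟩, e3, e4⟩, e5⟩, e6⟩ := hH₀ H hH
  obtain ⟨l, hl⟩ : ∃ l : ℝ, l = Real.log H := ⟨_, rfl⟩
  rw [← hl] at e1 e2 e3 e4 e5 hWB hlN hNB
  have hl20 : (1048576 : ℝ) ≤ l := by norm_num at e3; linarith
  have hl0 : 0 < l := by linarith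
  have hl1 : 1 ≤ l := by linarith
  have hN1 : l ≤ N := le_trans (le_self_pow₀ hl1 (by norm_num)) hlN
  have hN0 : (0 : ℝ) < N := by linarith
  have hlogN : Real.exp (4 / ε) ≤ Real.log N := by
    have h3 := Real.log_le_log (Real.exp_pos _) (e1.trans hN1)
    rwa [Real.log_exp] at h3
  have hlogN1 : 1 < Real.log N := by
    refine lt_of_lt_of_le ?_ hlogN
    rw [Real.one_lt_exp_iff]
    positivity
  have hllN : 4 / ε ≤ Real.log (Real.log N) := by
    have h3 := Real.log_le_log (Real.exp_pos _) hlogN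
    rwa [Real.log_exp] at h3
  have hNN₀ : N₀ ≤ N := by
    have : (N₀ : ℝ) ≤ N := e2.trans hN1
    exact_mod_cast this
  obtain ⟨z, hz⟩ : ∃ z : ℕ, z = Nat.sqrt (Nat.sqrt N) := ⟨_, rfl⟩
  have hz4 : z ^ 4 ≤ N := by
    have h3 : z * z ≤ Nat.sqrt N := by rw [hz]; exact Nat.sqrt_le _
    have h4 : Nat.sqrt N * Nat.sqrt N ≤ N := Nat.sqrt_le _
    calc z ^ 4 = (z * z) * (z * z) := by ring
      _ ≤ Nat.sqrt N * Nat.sqrt N := Nat.mul_le_mul h3 h3
      _ ≤ N := h4
  have hz4' : N < (z + 1) ^ 4 := by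
    have h3 : Nat.sqrt N < (z + 1) * (z + 1) := by rw [hz]; exact Nat.lt_succ_sqrt _
    have h4 : N < (Nat.sqrt N + 1) * (Nat.sqrt N + 1) := Nat.lt_succ_sqrt _
    calc N < (Nat.sqrt N + 1) * (Nat.sqrt N + 1) := h4
      _ ≤ ((z + 1) * (z + 1)) * ((z + 1) * (z + 1)) := Nat.mul_le_mul h3 h3
      _ = (z + 1) ^ 4 := by ring
  have hzl : l ^ 2 / 2 ≤ z := by
    have h3 : l ^ 8 < ((z : ℝ) + 1) ^ 4 := lt_of_le_of_lt hlN (by exact_mod_cast hz4')
    have h4 : l ^ 2 < (z : ℝ) + 1 := by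
      by_contra hcon
      push Not at hcon
      have h5 : ((z : ℝ) + 1) ^ 4 ≤ (l ^ 2) ^ 4 := pow_le_pow_left₀ (by positivity) hcon 4
      have h6 : (l ^ 2) ^ 4 = l ^ 8 := by ring
      linarith
    nlinarith
  have hz3 : (3 : ℝ) ≤ z := by nlinarith
  have hz0 : (0 : ℝ) < z := by linarith
  have hlogz : 1 ≤ Real.log z := by
    rw [Real.le_log_iff_exp_le hz0]
    linarith [Real.exp_one_lt_d9]
  have hH0 : (0 : ℝ) < H := by exact_mod_cast (show 0 < H by omega)
  rw [Real.rpow_one] at e5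
  -- the products
  have hWj : ∀ j : ℕ, j ≤ N → 2 * (W * j) ≤ H := by
    intro j hj
    have h3 : (j : ℝ) ≤ l ^ B := le_trans (by exact_mod_cast hj) hNB
    have h4 : (W : ℝ) * j ≤ l ^ (2 * B) := by
      calc (W : ℝ) * j ≤ l ^ B * l ^ B := by gcongr
        _ = l ^ (2 * B) := by rw [← pow_add, two_mul]
    have h5 : (2 : ℝ) * (W * j) ≤ H := by linarith
    exact_mod_cast h5
  have hlogm : ∀ m : ℕ, m ≤ H ^ 3 → Real.log m ≤ 3 * l := by
    intro m hm
    rcases Nat.eq_zero_or_pos m with rfl | hm0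
    · simp
      linarith
    · have h3 : Real.log m ≤ Real.log ((H : ℝ) ^ 3) :=
        Real.log_le_log (by exact_mod_cast hm0) (by exact_mod_cast hm)
      rw [Real.log_pow, ← hl] at h3
      exact_mod_cast h3
  have hbig : 3 * l / (z * Real.log z) ≤ ε / 8 := by
    have h3 : l ^ 2 / 2 ≤ z * Real.log z := by nlinarith
    have h4 : 48 ≤ ε * l := by
      rw [div_le_iff₀ hε] at e4
      linarith
    rw [div_le_iff₀ (by positivity)]
    calc 3 * l ≤ ε / 8 * (l ^ 2 / 2) := by nlinarith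
      _ ≤ ε / 8 * (z * Real.log z) := by gcongr
  set bad1 := (Icc 1 N).filter (fun k : ℕ => ε / 4 < ∑ p ∈ (Icc 1 z).filter (fun p : ℕ =>
    p.Prime ∧ Real.log N < p ∧ ¬ p ∣ W ∧ (p : ℤ) ∣ (n : ℤ) + W * k), (1 : ℝ) / p) with hb1
  set bad2 := (Icc 1 N).filter (fun k : ℕ => ε / 4 < ∑ p ∈ (Icc 1 z).filter (fun p : ℕ =>
    p.Prime ∧ Real.log N < p ∧ ¬ p ∣ W ∧ (p : ℤ) ∣ (-(n : ℤ)) + W * k), (1 : ℝ) / p) with hb2
  have hc1 : (bad1.card : ℝ) ≤ (N : ℝ) ^ (3 / 4 : ℝ) := by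
    rw [hb1]
    convert hMOM (n : ℤ) W N z hNN₀ hz4
  have hc2 : (bad2.card : ℝ) ≤ (N : ℝ) ^ (3 / 4 : ℝ) := by
    rw [hb2]
    convert hMOM (-(n : ℤ)) W N z hNN₀ hz4
  have hsub : (Icc 1 N).filter (fun j : ℕ =>
      ε < ∑ p ∈ (PS W H).filter (fun p : ℕ => CF (Fl n) (W * j) p), (1 : ℝ) / p) ⊆ bad1 ∪ bad2 := by
    intro j hj
    rw [mem_filter] at hj
    obtain ⟨hjN, hjε⟩ := hj
    by_contra hcon
    rw [mem_union, not_or, hb1, hb2, mem_filter, mem_filter, not_and, not_and] at hcon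
    have g1 := not_lt.1 (hcon.1 hjN)
    have g2 := not_lt.1 (hcon.2 hjN)
    rw [mem_Icc] at hjN
    have hWjH := hWj j hjN.2
    set S0 := (PS W H).filter (fun p : ℕ => CF (Fl n) (W * j) p) with hS0
    have hS0p : ∀ p ∈ S0, p.Prime ∧ ¬ p ∣ W ∧ Real.log N < p := by
      intro p hp
      rw [hS0, mem_filter] at hp
      have hp1 := hp.1
      unfold PS at hp1
      rw [mem_filter] at hp1
      refine ⟨hp1.2.1, hp1.2.2, ?_⟩
      by_contra h3
      push Not at h3
      exact hp1.2.2 (hpW p hp1.2.1 h3)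
    set T1 := S0.filter (fun p => p ∣ j) with hT1
    set T2 := (Icc 1 z).filter (fun p : ℕ =>
      p.Prime ∧ Real.log N < p ∧ ¬ p ∣ W ∧ (p : ℤ) ∣ (n : ℤ) + W * j) with hT2
    set T3 := (Icc 1 z).filter (fun p : ℕ =>
      p.Prime ∧ Real.log N < p ∧ ¬ p ∣ W ∧ (p : ℤ) ∣ (-(n : ℤ)) + W * j) with hT3
    set T4 := S0.filter (fun p => z < p ∧ p ∣ n + W * j) with hT4
    set T5 := S0.filter (fun p => z < p ∧ p ∣ n - W * j) with hT5
    have k1 : ∑ p ∈ T1, (1 : ℝ) / p ≤ ε / 4 := by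
      have h3 := big_primes T1 j (by omega) (Real.log N) (Real.log N) hlogN1 (by
        intro p hp
        rw [hT1, mem_filter] at hp
        exact ⟨(hS0p p hp.1).1, hp.2, (hS0p p hp.1).2.2.le⟩)
        (Real.log_le_log (by exact_mod_cast hjN.1) (by exact_mod_cast hjN.2))
      refine h3.trans ?_
      have h4 : 0 < Real.log N := by linarith
      have h5 : 0 < Real.log (Real.log N) := lt_of_lt_of_le (by positivity) hllN
      rw [div_le_iff₀ (by positivity)]
      rw [div_le_iff₀ hε] at hllN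
      nlinarith
    have hnH3 : n + W * j ≤ H ^ 3 := by
      have h3 : H ^ 2 + H ≤ H ^ 3 := by nlinarith
      omega
    have k4 : ∑ p ∈ T4, (1 : ℝ) / p ≤ ε / 8 := by
      refine (big_primes T4 (n + W * j) (by omega) z (3 * l) (by linarith) ?_
        (hlogm _ hnH3)).trans hbig
      intro p hp
      rw [hT4, mem_filter] at hp
      exact ⟨(hS0p p hp.1).1, hp.2.2, by exact_mod_cast hp.2.1.le⟩
    have k5 : ∑ p ∈ T5, (1 : ℝ) / p ≤ ε / 8 := by
      refine (big_primes T5 (n - W * j) (by omega) z (3 * l) (by linarith) ?_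
        (hlogm _ (by omega))).trans hbig
      intro p hp
      rw [hT5, mem_filter] at hp
      exact ⟨(hS0p p hp.1).1, hp.2.2, by exact_mod_cast hp.2.1.le⟩
    have hcov : S0 ⊆ (((T1 ∪ T2) ∪ T3) ∪ T4) ∪ T5 := by
      intro p hp
      obtain ⟨q1, q2, q3⟩ := hS0p p hp
      have hCF : CF (Fl n) (W * j) p := by
        have hp' := hp
        rw [hS0, mem_filter] at hp'
        exact hp'.2
      rcases (h2 n).2 (W * j) p q1 hCF with hd | hd | hd
      · have hj' : p ∣ j := (q1.dvd_mul.1 hd).resolve_left q2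
        have : p ∈ T1 := by rw [hT1, mem_filter]; exact ⟨hp, hj'⟩
        simp only [mem_union]
        tauto
      · push_cast at hd
        by_cases hpz : p ≤ z
        · have : p ∈ T3 := by
            rw [hT3, mem_filter, mem_Icc]
            refine ⟨⟨q1.one_lt.le, hpz⟩, q1, q3, q2, ?_⟩
            have h3 : (-(n : ℤ)) + W * j = -((n : ℤ) - W * j) := by ring
            rw [h3, dvd_neg]
            exact hd
          simp only [mem_union]
          tauto
        · have : p ∈ T5 := by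
            rw [hT5, mem_filter]
            refine ⟨hp, by omega, ?_⟩
            have h3 : ((n - W * j : ℕ) : ℤ) = (n : ℤ) - W * j := by
              rw [Nat.cast_sub (by omega)]
              push_cast
              ring
            rw [← Int.natCast_dvd_natCast, h3]
            exact hd
          simp only [mem_union]
          tauto
      · push_cast at hd
        by_cases hpz : p ≤ z
        · have : p ∈ T2 := by
            rw [hT2, mem_filter, mem_Icc]
            exact ⟨⟨q1.one_lt.le, hpz⟩, q1, q3, q2, hd⟩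
          simp only [mem_union]
          tauto
        · have : p ∈ T4 := by
            rw [hT4, mem_filter]
            refine ⟨hp, by omega, ?_⟩
            rw [← Int.natCast_dvd_natCast]
            push_cast
            exact hd
          simp only [mem_union]
          tauto
    have h6 : ∑ p ∈ S0, (1 : ℝ) / p ≤ ∑ p ∈ (((T1 ∪ T2) ∪ T3) ∪ T4) ∪ T5, (1 : ℝ) / p :=
      sum_le_sum_of_subset_of_nonneg hcov fun _ _ _ => by positivity
    have h7 := sum_un (((T1 ∪ T2) ∪ T3) ∪ T4) T5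
    have h8 := sum_un ((T1 ∪ T2) ∪ T3) T4
    have h9 := sum_un (T1 ∪ T2) T3
    have h10 := sum_un T1 T2
    linarith
  have h3 : (((Icc 1 N).filter (fun j : ℕ =>
      ε < ∑ p ∈ (PS W H).filter (fun p : ℕ => CF (Fl n) (W * j) p), (1 : ℝ) / p)).card : ℝ) ≤
      bad1.card + bad2.card := by
    exact_mod_cast (card_le_card hsub).trans (card_union_le _ _)
  have h4 : (2 : ℝ) * (N : ℝ) ^ (3 / 4 : ℝ) ≤ (N : ℝ) ^ (4 / 5 : ℝ) := by
    have h5 : (N : ℝ) ^ (4 / 5 : ℝ) = (N : ℝ) ^ (1 / 20 : ℝ) * (N : ℝ) ^ (3 / 4 : ℝ) := by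
      rw [← Real.rpow_add hN0]
      norm_num
    have h6 : (2 : ℝ) ≤ (N : ℝ) ^ (1 / 20 : ℝ) := by
      have h7 : ((2 : ℝ) ^ 20) ^ (1 / 20 : ℝ) ≤ (N : ℝ) ^ (1 / 20 : ℝ) :=
        Real.rpow_le_rpow (by positivity) (e3.trans hN1) (by norm_num)
      rw [← Real.rpow_natCast, ← Real.rpow_mul (by norm_num)] at h7
      norm_num at h7
      linarith
    rw [h5]
    gcongr
  refine le_trans ?_ (h3.trans (le_trans ?_ h4))
  · exact le_of_eq (by congr!)
  · linarith

end Pool.Agent.K3h89.SX
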