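import Pool.Agent.K3h89.SZ.Stm

/-!
# Project SX (helper89): Szemerédi's theorem in Rivera's window, for EVERY large even number

`Fl n x = x (n - x)`.  Common prime factors of `Fl n x`, `Fl n (x + h)` divide `h`, `n - h` or `n + h`.
Part 1: the theorem `S_ENGP` of project SZ (`Pool.Agent.K3h89.SZ`), if only for MOST differences `W k` the sum of
the reciprocals of the common prime factors is small.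
Part 2: this is so for `Fl n`, for every `n`.
-/

set_option autoImplicit false

open Finset

namespace Pool.Agent.K3h89.SX

open Pool.Agent.H602R3.DHJ (av)
open Pool.Agent.TH423.SH (PS)
open Pool.Agent.Y727.PSP (LFk)
open Pool.Agent.Y677.RSZ (rt rhoT V rs)
open Pool.Agent.K3h89.SZ (SysP CF)

open Classical in
/-- (MKX) `S_MK` of `Y677.RSZ.Stm` with a set `D` of bad differences -/
def S_MKX : Prop := ∀ k : ℕ, 2 ≤ k → ∀ η : ℝ, 0 < η → ∃ η' : ℝ, 0 < η' ∧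
  ∀ (N : ℕ) [NeZero N], N.Prime → k ≤ N → ∀ (S : Finset ℕ) (w : ℕ → ZMod N → ℝ) (T : ℝ)
    (D : Finset (ZMod N)),
  S.Nonempty → 1 ≤ T → (∀ K a, 0 ≤ w K a) → (∀ K ∈ S, ∀ a, w K a ≤ T) →
  (D.card : ℝ) * T ^ (2 * (k * 2 ^ k)) / N ≤ η' →
  (∀ m ≤ 2 * (k * 2 ^ k), ∀ u : Fin m → ZMod N, (∀ i j, i ≠ j → u i - u j ∉ D) →
    |(∑ K ∈ S, ∏ i, w K (u i)) / S.card - 1| ≤ η') →
  ∑ K ∈ S, |av (w K) - 1| ≤ η * S.card ∧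
  ((S.filter (fun K => ¬ LFk k N (w K) η)).card : ℝ) ≤ η * S.card

open Classical in
/-- (LOCX) `S_LOCP` with the hypothesis on the common prime factors only for the differences of the `t i` -/
def S_LOCX : Prop := ∀ (g m : ℕ) (η : ℝ), 0 < η → ∃ ε : ℝ, 0 < ε ∧ ∃ s₀ : ℝ, ∀ s : ℝ, s₀ ≤ s →
  ∀ W : ℕ, 1 ≤ W → (∀ p : ℕ, p.Prime → (p : ℝ) ≤ s → p ∣ W) →
  ∀ F : ℤ → ℤ, SysP g F → ∀ R : ℕ, ∀ (t : Fin m → ℕ) (b : ℕ), Function.Injective t →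
  (∀ i j, t i < t j →
    ∑ p ∈ (PS W R).filter (fun p : ℕ => CF F (W * (t j - t i)) p), (1 : ℝ) / p ≤ ε) →
    |∏ p ∈ PS W R, (1 - (rhoT F W b t p : ℝ) / p) - V F W R ^ m| ≤ η * V F W R ^ m

open Classical in
/-- (MAJX) `S_MAJP` with the hypothesis on the sums only for the differences of the `t i` -/
def S_MAJX : Prop := ∀ (g M : ℕ) (δ : ℝ), 0 < δ → ∃ c : ℝ, 0 < c ∧ ∀ η : ℝ, 0 < η →
  ∃ ε : ℝ, 0 < ε ∧ ∃ (B : ℕ) (s₀ : ℝ), ∀ B' : ℕ, ∃ H₀ : ℕ,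
  ∀ (F : ℤ → ℤ) (Y H W N : ℕ) (s : ℝ), SysP g F → H₀ ≤ H →
  (∀ n ∈ Ioc Y (Y + H), F (n : ℤ) ≠ 0 ∧ |F (n : ℤ)| ≤ (H : ℤ) ^ g) →
  1 ≤ W → 1 ≤ N → (W : ℝ) ≤ Real.log H ^ B' → (N : ℝ) ≤ Real.log H ^ B' → s₀ ≤ s →
  (∀ p : ℕ, p.Prime → (p : ℝ) ≤ s → p ∣ W) →
  (∀ k : ℕ, 1 ≤ k → k ≤ N → ∀ p : ℕ, p.Prime → Real.exp (√(Real.log H)) ≤ p → ¬ CF F (W * k) p) →
  ∃ ν : ℕ → ℝ, (∀ n, 0 ≤ ν n) ∧ (∀ n ∈ Ioc Y (Y + H), ν n ≤ Real.log H ^ B) ∧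
    (∀ n ∈ Ioc Y (Y + H), (∀ p : ℕ, p.Prime → (p : ℝ) ≤ (H : ℝ) ^ δ → ¬ (p : ℤ) ∣ F (n : ℤ)) →
      c ≤ ν n * V F W H) ∧
    ∀ m ≤ M, ∀ t : Fin m → ℕ, Function.Injective t → (∀ i, 1 ≤ t i ∧ t i ≤ N) →
      (∀ i j, t i < t j →
        ∑ p ∈ (PS W H).filter (fun p : ℕ => CF F (W * (t j - t i)) p), (1 : ℝ) / p ≤ ε) →
      ∀ b M₀ L : ℕ, (H : ℝ) ^ (1 / 2 : ℝ) ≤ L →
        |(∑ K ∈ Ioc M₀ (M₀ + L), ∏ i, ν (W * (K + t i) + b)) / L - 1| ≤ η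

open Classical in
/-- (ENGX) `S_ENGP` with the hypothesis on the common prime factors of `F x`, `F (x + W k)` for most `k` -/
def S_ENGX : Prop := ∀ (k g : ℕ) (δ κ : ℝ), 2 ≤ k → 0 < δ → 0 < κ → ∃ ε : ℝ, 0 < ε ∧ ∃ B H₀ : ℕ,
  ∀ (F : ℤ → ℤ) (Y H : ℕ) (A : Finset ℕ), SysP g F → H₀ ≤ H →
  (∀ n ∈ Ioc Y (Y + H), F (n : ℤ) ≠ 0 ∧ |F (n : ℤ)| ≤ (H : ℤ) ^ g) →
  (∀ W N : ℕ, 1 ≤ W → (W : ℝ) ≤ Real.log H ^ B → Real.log H ^ 8 ≤ N → (N : ℝ) ≤ Real.log H ^ B →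
    (∀ p : ℕ, p.Prime → (p : ℝ) ≤ Real.log N → p ∣ W) →
    (((Icc 1 N).filter (fun j : ℕ =>
      ε < ∑ p ∈ (PS W H).filter (fun p : ℕ => CF F (W * j) p), (1 : ℝ) / p)).card : ℝ) ≤
      (N : ℝ) ^ (4 / 5 : ℝ)) →
  (∀ h : ℕ, 1 ≤ h → (h : ℝ) ≤ Real.log H ^ B →
    ∀ p : ℕ, p.Prime → Real.exp (√(Real.log H)) ≤ p → ¬ CF F h p) →
  A ⊆ Ioc Y (Y + H) →
  (∀ n ∈ A, ∀ p : ℕ, p.Prime → (p : ℝ) ≤ (H : ℝ) ^ δ → ¬ (p : ℤ) ∣ F (n : ℤ)) →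
  κ * (H * V F 1 H) ≤ A.card →
  ∃ a d : ℕ, 1 ≤ d ∧ (d : ℝ) ≤ Real.log H ^ B ∧ ∀ i < k, a + i * d ∈ A

open Classical in
/-- (MOM) few `k ≤ N` are such that `a + W k` has many prime factors between `log N` and `N ^ (1/4)` -/
def S_MOM : Prop := ∀ ε : ℝ, 0 < ε → ∃ N₀ : ℕ, ∀ (a : ℤ) (W N z : ℕ), N₀ ≤ N → z ^ 4 ≤ N →
  (((Icc 1 N).filter (fun k : ℕ => ε < ∑ p ∈ (Icc 1 z).filter (fun p : ℕ =>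
    p.Prime ∧ Real.log N < p ∧ ¬ p ∣ W ∧ (p : ℤ) ∣ a + W * k), (1 : ℝ) / p)).card : ℝ) ≤
    (N : ℝ) ^ (3 / 4 : ℝ)

/-- the function `x (n - x)` -/
def Fl (n : ℕ) (x : ℤ) : ℤ := x * ((n : ℤ) - x)

/-- (SYSX) the functions `Fl n` are systems, and their common prime factors -/
def S_SYSX : Prop := ∀ n : ℕ,
  (Even n → SysP 4 (Fl n)) ∧
  ∀ (h p : ℕ), p.Prime → CF (Fl n) h p →
    p ∣ h ∨ (p : ℤ) ∣ (n : ℤ) - h ∨ (p : ℤ) ∣ (n : ℤ) + h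

open Classical in
/-- (BADX) for most `j` the sum of the reciprocals of the common prime factors of `Fl n x`, `Fl n (x + W j)`
is small -/
def S_BADX : Prop := ∀ (B : ℕ) (ε : ℝ), 0 < ε → ∃ H₀ : ℕ, ∀ H : ℕ, H₀ ≤ H →
  ∀ n : ℕ, H ≤ n → n ≤ H ^ 2 →
  ∀ W N : ℕ, 1 ≤ W → (W : ℝ) ≤ Real.log H ^ B → Real.log H ^ 8 ≤ N → (N : ℝ) ≤ Real.log H ^ B →
    (∀ p : ℕ, p.Prime → (p : ℝ) ≤ Real.log N → p ∣ W) →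
    (((Icc 1 N).filter (fun j : ℕ =>
      ε < ∑ p ∈ (PS W H).filter (fun p : ℕ => CF (Fl n) (W * j) p), (1 : ℝ) / p)).card : ℝ) ≤
      (N : ℝ) ^ (4 / 5 : ℝ)

open Classical in
/-- (LARX) the common prime factors of large size -/
def S_LARX : Prop := ∀ (B : ℕ) (η : ℝ), 0 < η → ∃ H₀ : ℕ, ∀ H : ℕ, H₀ ≤ H →
  ∀ n : ℕ, H ≤ n → n ≤ H ^ 2 →
  ∑ p ∈ (Icc 1 H).filter (fun p : ℕ => p.Prime ∧ Real.exp (√(Real.log H)) ≤ p ∧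
    ∃ h : ℕ, 1 ≤ h ∧ (h : ℝ) ≤ Real.log H ^ B ∧ CF (Fl n) h p), (1 : ℝ) / p ≤ η

/-- the variable part of the singular series of the Goldbach problem -/
noncomputable def sg (n : ℕ) : ℝ := ∏ p ∈ n.primeFactors.erase 2, (((p : ℝ) - 1) / ((p : ℝ) - 2))

/-- (VX) the sieve product of `Fl n` -/
def S_VX : Prop := ∃ K : ℝ, 0 < K ∧ ∀ n H : ℕ, 1 ≤ n → Even n → 2 ≤ H →
  V (Fl n) 1 H ≤ K * sg n / Real.log H ^ 2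

/-- (FINX) Szemerédi's theorem for every large even `n`, in Rivera's window -/
def S_FINX : Prop := ∀ (k : ℕ) (δ κ : ℝ), 0 < δ → 0 < κ → ∃ B n₀ : ℕ, ∀ n : ℕ, n₀ ≤ n → Even n →
  ∀ S : Finset ℕ, (∀ p ∈ S, p.Prime ∧ √(n : ℝ) < p ∧ (p : ℝ) < 4 * √(n : ℝ) ∧
    ∀ q : ℕ, q.Prime → q ∣ (n - p) → (n : ℝ) ^ δ ≤ q) →
  κ * (sg n * (√(n : ℝ) / Real.log n ^ 2)) ≤ S.card →
  ∃ a d : ℕ, 1 ≤ d ∧ (d : ℝ) ≤ Real.log n ^ B ∧ ∀ i < k, a + i * d ∈ S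

end Pool.Agent.K3h89.SX
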