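import Pool.Agent.K3h89.SZ.Base
import Pool.Agent.K3h89.SX.Stm

/-!
# Project SX (helper89): assembly
-/

set_option autoImplicit false

open Finset Filter

namespace Pool.Agent.K3h89.SX

open Pool.Agent.TH423.SH (PS)
open Pool.Agent.Y677.RSZ (rt V)
open Pool.Agent.K3h89.SZ (SysP CF strip S_STRIP)

set_option maxHeartbeats 1600000 in
theorem finX (hENG : S_ENGX) (hSTRIP : S_STRIP) (hSYS : S_SYSX) (hBAD : S_BADX) (hLAR : S_LARX) (hV : S_VX) :
    S_FINX := by
  classical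
  intro k δ κ hδ hκ
  obtain ⟨K, hK, hV⟩ := hV
  obtain ⟨εE, hεE, B, H₂, hE⟩ := hENG (max k 2) 4 (min δ (1 / 4)) (κ / (64 * K)) (le_max_right _ _)
    (lt_min hδ (by norm_num)) (by positivity)
  obtain ⟨H₃, hX⟩ := hBAD B εE hεE
  obtain ⟨H₄, hL⟩ := hLAR B (1 / 20) (by norm_num)
  have hT := tendsto_natCast_atTop_atTop (R := ℝ)
  have hs : Tendsto (fun N : ℕ => √(N : ℝ)) atTop atTop := Real.tendsto_sqrt_atTop.comp hT
  obtain ⟨n₀, hn₀⟩ := eventually_atTop.1 ((eventually_ge_atTop ((H₂ + H₃ + H₄) ^ 2 + 100)).and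
    (hs.eventually_ge_atTop (Real.exp (9 : ℝ))))
  refine ⟨B, n₀, fun n hn hev S hS hSc => ?_⟩
  obtain ⟨n1, n2⟩ := hn₀ n hn
  obtain ⟨H, hH⟩ : ∃ H : ℕ, H = 4 * (Nat.sqrt n + 1) := ⟨_, rfl⟩
  have hn100 : 100 ≤ n := by omega
  have hnr : (100 : ℝ) ≤ n := by exact_mod_cast hn100
  have hn0 : (0 : ℝ) < n := by linarith
  have hss : √(n : ℝ) * √(n : ℝ) = n := Real.mul_self_sqrt hn0.le
  have hs10 : (10 : ℝ) ≤ √(n : ℝ) := by
    apply Real.le_sqrt_of_sq_le
    linarith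
  have hr1 : H₂ + H₃ + H₄ ≤ Nat.sqrt n := by
    rw [Nat.le_sqrt']
    omega
  have hr2 : √(n : ℝ) ≤ ((Nat.sqrt n + 1 : ℕ) : ℝ) := by
    rw [Real.sqrt_le_left (Nat.cast_nonneg _)]
    have := Nat.lt_succ_sqrt' n
    exact_mod_cast this.le
  have hr3 : ((Nat.sqrt n : ℕ) : ℝ) ≤ √(n : ℝ) := Real.nat_sqrt_le_real_sqrt
  have hH1 : 4 * √(n : ℝ) ≤ H := by
    rw [hH]
    push_cast at hr2 ⊢
    linarith
  have hH2 : (H : ℝ) ≤ 5 * √(n : ℝ) := by
    rw [hH]
    push_cast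
    linarith
  have hH0 : (0 : ℝ) < H := by linarith
  have hHn : (H : ℝ) ≤ n := by nlinarith
  have hHn' : H ≤ n := by exact_mod_cast hHn
  have hnH2 : n ≤ H ^ 2 := by
    have h1 := Nat.lt_succ_sqrt' n
    rw [Nat.succ_eq_add_one] at h1
    rw [hH, mul_pow]
    omega
  have hexpH : (9 : ℝ) ≤ Real.log H := by
    rw [Real.le_log_iff_exp_le hH0]
    linarith
  have hlogH : 0 < Real.log H := by linarith
  have hlogHn : Real.log H ≤ Real.log n := Real.log_le_log hH0 hHn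
  have hlogn : 0 < Real.log n := by linarith
  have hlognH : Real.log n ≤ 2 * Real.log H := by
    have h1 : (n : ℝ) ≤ (H : ℝ) ^ 2 := by exact_mod_cast hnH2
    have := Real.log_le_log hn0 h1
    rw [Real.log_pow] at this
    exact_mod_cast this
  have n9 : (10 : ℝ) ≤ Real.exp (√(Real.log H)) := by
    have h11 : (3 : ℝ) ≤ √(Real.log H) := by
      apply Real.le_sqrt_of_sq_le
      linarith
    have h12 : (10 : ℝ) ≤ Real.exp 3 := by
      have h13 : (2.7182818283 : ℝ) < Real.exp 1 := Real.exp_one_gt_d9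
      have e : Real.exp 3 = Real.exp 1 ^ 3 := by rw [← Real.exp_nat_mul]; norm_num
      rw [e]
      have : (2.7 : ℝ) ^ 3 ≤ Real.exp 1 ^ 3 := pow_le_pow_left₀ (by norm_num) (by linarith) 3
      linarith
    exact h12.trans (Real.exp_le_exp.2 h11)
  -- the stripped function
  obtain ⟨bad, hbd⟩ : ∃ bad : ℕ → Prop, bad = fun p : ℕ => Real.exp (√(Real.log H)) ≤ p ∧
    ∃ h : ℕ, 1 ≤ h ∧ (h : ℝ) ≤ Real.log H ^ B ∧ CF (Fl n) h p := ⟨_, rfl⟩
  obtain ⟨F, hF⟩ : ∃ F : ℤ → ℤ, F = strip (Fl n) H bad := ⟨_, rfl⟩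
  obtain ⟨s1, s2, s3, s4⟩ := hSTRIP 4 (Fl n) H bad ((hSYS n).1 hev)
  rw [← hF] at s1 s2 s3 s4
  have hCF : ∀ h p : ℕ, p.Prime → CF F h p → CF (Fl n) h p ∧ ¬ bad p := by
    rintro h p hp ⟨x, hx, hx'⟩
    have g1 := (s2 x p hp).1 hx
    have g2 := (s2 (x + h) p hp).1 hx'
    exact ⟨⟨x, g1.2.2, g2.2.2⟩, g1.2.1⟩
  have hVb : V F 1 H ≤ 2 * V (Fl n) 1 H := by
    apply s4
    · have h1 := hL H (by omega) n hHn' hnH2
      have e : (1 : ℝ) / (4 * ((4 : ℕ) + 1)) = 1 / 20 := by norm_num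
      rw [e]
      refine le_trans (le_of_eq ?_) h1
      apply sum_congr _ (fun _ _ => rfl)
      ext p
      simp only [mem_filter, hbd]
    · intro p hp hbp
      rw [hbd] at hbp
      have h1 := n9.trans hbp.1
      have : (10 : ℕ) ≤ p := by exact_mod_cast h1
      omega
  have hVK := hV n H (by omega) hev (by omega)
  -- the density
  have hden : κ / (64 * K) * (H * V F 1 H) ≤ S.card := by
    refine le_trans ?_ hSc
    have hsg : 0 ≤ sg n := by
      by_contra hcon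
      push Not at hcon
      have h1 : K * sg n / Real.log H ^ 2 < 0 := div_neg_of_neg_of_pos (mul_neg_of_pos_of_neg hK hcon) (by positivity)
      have h2 : 0 < V F 1 H := Pool.Agent.K3h89.SZ.V_posP s1 1 H
      linarith
    have h1 : V F 1 H ≤ 2 * (K * sg n / Real.log H ^ 2) := by linarith
    have h5 : Real.log n ^ 2 ≤ 4 * Real.log H ^ 2 := by
      have := pow_le_pow_left₀ hlogn.le hlognH 2
      nlinarith
    have hH8 : (H : ℝ) ≤ 8 * √(n : ℝ) := by linarith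
    have hV0 : 0 < V F 1 H := Pool.Agent.K3h89.SZ.V_posP s1 1 H
    have h6 : (H : ℝ) * V F 1 H ≤ 8 * √(n : ℝ) * (2 * (K * sg n / Real.log H ^ 2)) :=
      mul_le_mul hH8 h1 hV0.le (by positivity)
    calc κ / (64 * K) * (H * V F 1 H) ≤ κ / (64 * K) * (8 * √(n : ℝ) * (2 * (K * sg n / Real.log H ^ 2))) :=
          mul_le_mul_of_nonneg_left h6 (by positivity)
      _ = κ * (sg n * (√(n : ℝ) / (4 * Real.log H ^ 2))) := by
          field_simp
          ring
      _ ≤ κ * (sg n * (√(n : ℝ) / Real.log n ^ 2)) := by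
          gcongr
  -- the small primes
  have hsmall : (H : ℝ) ^ (min δ (1 / 4) : ℝ) < (n : ℝ) ^ δ ∧ (H : ℝ) ^ (min δ (1 / 4) : ℝ) < √(n : ℝ) := by
    have hHn2 : (H : ℝ) < n := by nlinarith
    have hH1' : (1 : ℝ) ≤ H := by linarith
    constructor
    · calc (H : ℝ) ^ (min δ (1 / 4) : ℝ) ≤ (H : ℝ) ^ δ := Real.rpow_le_rpow_of_exponent_le hH1' (min_le_left _ _)
        _ < (n : ℝ) ^ δ := Real.rpow_lt_rpow hH0.le hHn2 hδ
    · calc (H : ℝ) ^ (min δ (1 / 4) : ℝ) ≤ (H : ℝ) ^ (1 / 4 : ℝ) :=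
            Real.rpow_le_rpow_of_exponent_le hH1' (min_le_right _ _)
        _ < (n : ℝ) ^ (1 / 4 : ℝ) := Real.rpow_lt_rpow hH0.le hHn2 (by norm_num)
        _ ≤ (n : ℝ) ^ (1 / 2 : ℝ) := Real.rpow_le_rpow_of_exponent_le (by linarith) (by norm_num)
        _ = √(n : ℝ) := (Real.sqrt_eq_rpow _).symm
  have hpn : ∀ p ∈ S, (p : ℝ) < H := fun p hp => (hS p hp).2.2.1.trans_le hH1
  -- the theorem
  obtain ⟨a, d, hd1, hd2, hAP⟩ := hE F 0 H S s1 (by omega)
    (by
      intro x hx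
      rw [mem_Ioc, zero_add] at hx
      have hxn : x < n := lt_of_le_of_lt hx.2 (by
        have : (H : ℝ) < n := by nlinarith
        exact_mod_cast this)
      have hne : Fl n (x : ℤ) ≠ 0 := by
        unfold Fl
        rw [mul_ne_zero_iff]
        constructor <;> omega
      obtain ⟨g1, g2⟩ := s3 x hne
      refine ⟨g1, g2.trans ?_⟩
      unfold Fl
      rw [abs_mul, Nat.abs_cast, abs_of_nonneg (by omega)]
      have h1 : (x : ℤ) ≤ H := by exact_mod_cast hx.2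
      have h2 : (n : ℤ) - x ≤ (H : ℤ) ^ 2 := by
        have : (n : ℤ) ≤ (H : ℤ) ^ 2 := by exact_mod_cast hnH2
        linarith [show (0 : ℤ) ≤ x by positivity]
      have h3 : (1 : ℤ) ≤ H := by
        have : (1 : ℝ) ≤ H := by linarith
        exact_mod_cast this
      calc (x : ℤ) * ((n : ℤ) - x) ≤ H * (H : ℤ) ^ 2 :=
            mul_le_mul h1 h2 (by omega) (by positivity)
        _ = (H : ℤ) ^ 3 := by ring
        _ ≤ (H : ℤ) ^ 4 := pow_le_pow_right₀ h3 (by norm_num))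
    (by
      intro W N hW1 hW2 hN1 hN2 hWp
      refine le_trans ?_ (hX H (by omega) n hHn' hnH2 W N hW1 hW2 hN1 hN2 hWp)
      rw [Nat.cast_le]
      apply card_le_card
      intro j hj
      rw [mem_filter] at hj ⊢
      refine ⟨hj.1, lt_of_lt_of_le hj.2 ?_⟩
      apply sum_le_sum_of_subset_of_nonneg
      · intro p hp
        rw [mem_filter] at hp ⊢
        have hp1 := hp.1
        unfold PS at hp1
        rw [mem_filter] at hp1
        exact ⟨hp.1, (hCF _ p hp1.2.1 hp.2).1⟩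
      · intro p _ _
        positivity)
    (by
      intro h hh1 hh2 p hp hpe hcf
      obtain ⟨g1, g2⟩ := hCF h p hp hcf
      apply g2
      rw [hbd]
      exact ⟨hpe, h, hh1, hh2, g1⟩)
    (by
      intro p hp
      rw [mem_Ioc, zero_add]
      have h1 := hpn p hp
      have h2 : p < H := by exact_mod_cast h1
      exact ⟨(hS p hp).1.pos, h2.le⟩)
    (by
      intro p hp q hq hqH hqd
      obtain ⟨hpp, hp1, hp2, hp3⟩ := hS p hp
      have g1 := ((s2 p q hq).1 hqd).2.2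
      have h1 : p < H := by
        have := hpn p hp
        exact_mod_cast this
      have hpn' : p ≤ n := by omega
      unfold Fl at g1
      have e : (n : ℤ) - (p : ℤ) = ((n - p : ℕ) : ℤ) := by
        rw [Nat.cast_sub hpn']
      rw [e] at g1
      have g4 : q ∣ p * (n - p) := by exact_mod_cast g1
      rcases (hq.dvd_mul).1 g4 with g5 | g5
      · have h2 := (Nat.prime_dvd_prime_iff_eq hq hpp).1 g5
        rw [h2] at hqH
        linarith [hsmall.2]
      · have h2 := hp3 q hq g5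
        linarith [hsmall.1])
    hden
  refine ⟨a, d, hd1, hd2.trans (pow_le_pow_left₀ hlogH.le hlogHn B), fun i hi => ?_⟩
  exact hAP i (lt_of_lt_of_le hi (le_max_left _ _))

end Pool.Agent.K3h89.SX
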