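import Pool.Agent.K3h89.SX.Stm
import Pool.Agent.Y79.PSP.MK

/-!
Project SX (job 541): a family of weights with the right correlations on average, up to a set of bad
differences, satisfies the `k`-linear forms condition for most of its members (adapted from
`Pool/Agent/Y852/RSZ/MK.lean`).
-/

set_option autoImplicit false

namespace Pool.Agent.K3h89.SX

namespace MK

open Finset
open Pool.Agent.H602R3.DHJ (av av_prod av_const av_mono av_nonneg av_add av_sub av_mul av_sum)
open Pool.Agent.Y727.PSP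
open Pool.Agent.Y79.PSP.MK (card_fiber av_abs_le frm frm_sep frm_ne)
open Pool.Agent.K3h89.SX

/-- the properties of the family -/
structure Maj {N : ℕ} (w : ℕ → ZMod N → ℝ) (S : Finset ℕ) (D : Finset (ZMod N)) (M : ℕ)
    (η L : ℝ) : Prop where
  nonneg : ∀ K a, 0 ≤ w K a
  maj : ∀ (I : Type) [Fintype I], Fintype.card I ≤ M → ∀ u : I → ZMod N,
    (∀ i j, i ≠ j → u i - u j ∉ D) →
    |(∑ K ∈ S, ∏ i, w K (u i)) / S.card - 1| ≤ η
  bound : ∀ (I : Type) [Fintype I], Fintype.card I ≤ M → ∀ u : I → ZMod N,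
    ∀ K ∈ S, ∏ i, w K (u i) ≤ L

variable {Y : Type} [AddCommGroup Y] [Fintype Y]

open Classical in
theorem card_badX {N : ℕ} [NeZero N] [hN : Fact N.Prime] {I : Type} [Fintype I]
    (f : I → Y →+ ZMod N) (hf : ∀ i j, i ≠ j → ∃ v, f i v ≠ f j v) (D : Finset (ZMod N)) :
    ((univ.filter (fun y : Y => ¬ ∀ i j, i ≠ j → f i y - f j y ∉ D)).card : ℝ) * N ≤
      (Fintype.card I : ℝ) ^ 2 * D.card * Fintype.card Y := by
  have h1 : (univ.filter (fun y : Y => ¬ ∀ i j, i ≠ j → f i y - f j y ∉ D)) ⊆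
      (((univ : Finset I).offDiag) ×ˢ D).biUnion fun p =>
        univ.filter fun y => (f p.1.1 - f p.1.2) y = p.2 := by
    intro y hy
    rw [mem_filter] at hy
    have h2 := hy.2
    push Not at h2
    obtain ⟨i, j, hij, hD⟩ := h2
    rw [mem_biUnion]
    refine ⟨((i, j), f i y - f j y), ?_, ?_⟩
    · rw [mem_product]
      exact ⟨by simpa using hij, hD⟩
    · rw [mem_filter]
      exact ⟨mem_univ _, rfl⟩
  have h3 : (univ.filter (fun y : Y => ¬ ∀ i j, i ≠ j → f i y - f j y ∉ D)).card * N ≤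
      (Fintype.card I) ^ 2 * D.card * Fintype.card Y := by
    calc (univ.filter (fun y : Y => ¬ ∀ i j, i ≠ j → f i y - f j y ∉ D)).card * N
        ≤ (∑ p ∈ ((univ : Finset I).offDiag) ×ˢ D,
            (univ.filter fun y => (f p.1.1 - f p.1.2) y = p.2).card) * N :=
          Nat.mul_le_mul_right _ ((card_le_card h1).trans card_biUnion_le)
      _ = ∑ p ∈ ((univ : Finset I).offDiag) ×ˢ D,
            (univ.filter fun y => (f p.1.1 - f p.1.2) y = p.2).card * N := by rw [sum_mul]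
      _ ≤ ∑ p ∈ ((univ : Finset I).offDiag) ×ˢ D, Fintype.card Y := by
          apply sum_le_sum
          intro p hp
          rw [mem_product] at hp
          obtain ⟨v, hv⟩ := hf p.1.1 p.1.2 (by simpa using hp.1)
          exact card_fiber _ (v := v) (by simpa [sub_eq_zero] using hv) p.2
      _ ≤ (Fintype.card I) ^ 2 * D.card * Fintype.card Y := by
          rw [sum_const, smul_eq_mul, card_product]
          apply Nat.mul_le_mul_right
          apply Nat.mul_le_mul_right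
          rw [offDiag_card, card_univ, pow_two]
          exact Nat.sub_le _ _
  exact_mod_cast h3

theorem lemB {N : ℕ} {w : ℕ → ZMod N → ℝ} {S : Finset ℕ} {D : Finset (ZMod N)} {M : ℕ}
    {η L : ℝ} [NeZero N] [Fact N.Prime] (h : Maj w S D M η L) (hL : 1 ≤ L) (hη : 0 ≤ η) (hX : S.Nonempty) {I : Type}
    [Fintype I]
    (hI : Fintype.card I ≤ M) (f : I → Y →+ ZMod N) (hf : ∀ i j, i ≠ j → ∃ v, f i v ≠ f j v) :
    |(∑ K ∈ S, av (fun y : Y => ∏ i, w K (f i y))) / S.card - 1| ≤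
      η + (Fintype.card I : ℝ) ^ 2 * (D.card * L) / N := by
  classical
  have hX' : (0 : ℝ) < S.card := by exact_mod_cast hX.card_pos
  have hN : (0 : ℝ) < N := by exact_mod_cast Nat.pos_of_ne_zero (NeZero.ne N)
  have hY : (0 : ℝ) < Fintype.card Y := by exact_mod_cast Fintype.card_pos
  set P : Y → ℝ := fun y => (∑ K ∈ S, ∏ i, w K (f i y)) / S.card - 1 with hP
  have h1 : (∑ K ∈ S, av (fun y : Y => ∏ i, w K (f i y))) / S.card - 1 = av P := by
    rw [hP, av_sub, av_const, ← av_sum]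
    congr 1
    simp_rw [div_eq_inv_mul]
    rw [av_mul]
  have hgood : ∀ y, (∀ i j, i ≠ j → f i y - f j y ∉ D) → |P y| ≤ η := by
    intro y hy
    exact h.maj I hI (fun i => f i y) hy
  have hbad : ∀ y, |P y| ≤ L := by
    intro y
    have h2 : 0 ≤ (∑ K ∈ S, ∏ i, w K (f i y)) / S.card :=
      div_nonneg (sum_nonneg fun K _ => prod_nonneg fun i _ => h.nonneg _ _) hX'.le
    have h3 : (∑ K ∈ S, ∏ i, w K (f i y)) / S.card ≤ L := by
      rw [div_le_iff₀ hX']
      calc ∑ K ∈ S, ∏ i, w K (f i y)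
          ≤ ∑ K ∈ S, L :=
            sum_le_sum fun K hK => h.bound I hI (fun i => f i y) K hK
        _ = L * S.card := by rw [sum_const, nsmul_eq_mul, mul_comm]
    rw [abs_le]
    constructor <;> simp only [hP] <;> linarith
  rw [h1]
  refine (av_abs_le P).trans ?_
  have h4 : av (fun y => |P y|) ≤ av (fun y => η +
      if ¬ ∀ i j, i ≠ j → f i y - f j y ∉ D then L else 0) := by
    apply av_mono
    intro y
    by_cases hy : ∀ i j, i ≠ j → f i y - f j y ∉ D
    · rw [if_neg (not_not_intro hy)]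
      have := hgood y hy
      linarith
    · rw [if_pos hy]
      have := hbad y
      linarith
  refine h4.trans ?_
  rw [av_add, av_const]
  have h5 : av (fun y : Y => if ¬ ∀ i j, i ≠ j → f i y - f j y ∉ D then L else 0) =
      ((univ.filter (fun y : Y => ¬ ∀ i j, i ≠ j → f i y - f j y ∉ D)).card : ℝ) * L /
        Fintype.card Y := by
    unfold av
    rw [← sum_filter, sum_const, nsmul_eq_mul]
  rw [h5]
  have h6 := card_badX f hf D
  have h7 : ((univ.filter (fun y : Y => ¬ ∀ i j, i ≠ j → f i y - f j y ∉ D)).card : ℝ) * L /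
        Fintype.card Y ≤ (Fintype.card I : ℝ) ^ 2 * (D.card * L) / N := by
    rw [div_le_div_iff₀ hY hN]
    nlinarith
  linarith

theorem lemC {N : ℕ} {w : ℕ → ZMod N → ℝ} {S : Finset ℕ} {D : Finset (ZMod N)} {M : ℕ}
    {η L : ℝ} [NeZero N] [Fact N.Prime] (h : Maj w S D M η L) (hL : 1 ≤ L) (hη : 0 ≤ η) (hX : S.Nonempty) {I : Type}
    [Fintype I]
    (hI : 2 * Fintype.card I ≤ M) (f : I → Y →+ ZMod N)
    (hf : ∀ i j, i ≠ j → ∃ v, f i v ≠ f j v) (hf0 : ∀ i, ∃ v, f i v ≠ 0) :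
    ∑ K ∈ S, (av (fun y : Y => ∏ i, w K (f i y)) - 1) ^ 2 ≤
      (3 * η + 2 * (M : ℝ) ^ 2 * (D.card * L) / N) * S.card := by
  classical
  have hX' : (0 : ℝ) < S.card := by exact_mod_cast hX.card_pos
  have hN : (0 : ℝ) < N := by exact_mod_cast Nat.pos_of_ne_zero (NeZero.ne N)
  have h1 := lemB h hL hη hX (by omega) f hf
  -- the family on `Y × Y`
  let g : I ⊕ I → Y × Y →+ ZMod N := Sum.elim (fun i => (f i).comp (AddMonoidHom.fst Y Y))
    (fun i => (f i).comp (AddMonoidHom.snd Y Y))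
  have hg : ∀ i j, i ≠ j → ∃ v, g i v ≠ g j v := by
    rintro (i | i) (j | j) hij
    · obtain ⟨v, hv⟩ := hf i j (fun h => hij (by rw [h]))
      exact ⟨(v, 0), by simpa [g] using hv⟩
    · obtain ⟨v, hv⟩ := hf0 i
      exact ⟨(v, 0), by simpa [g] using hv⟩
    · obtain ⟨v, hv⟩ := hf0 i
      exact ⟨(0, v), by simpa [g] using hv⟩
    · obtain ⟨v, hv⟩ := hf i j (fun h => hij (by rw [h]))
      exact ⟨(0, v), by simpa [g] using hv⟩
  have h2 := lemB h hL hη hX (by rw [Fintype.card_sum]; omega) g hg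
  have h3 : ∀ K, av (fun y : Y × Y => ∏ i, w K (g i y)) =
      (av (fun y : Y => ∏ i, w K (f i y))) ^ 2 := by
    intro K
    rw [av_prod]
    have h4 : ∀ x y : Y, ∏ i, w K (g i (x, y)) =
        (∏ i, w K (f i x)) * ∏ i, w K (f i y) := by
      intro x y
      rw [Fintype.prod_sum_type]
      rfl
    simp_rw [h4]
    simp_rw [av_mul]
    have h5 : av (fun x : Y => (∏ i, w K (f i x)) *
        av (fun y : Y => ∏ i, w K (f i y))) =
        av (fun x : Y => av (fun y : Y => ∏ i, w K (f i y)) *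
          ∏ i, w K (f i x)) := by
      congr 1
      funext x
      rw [mul_comm]
    rw [h5, av_mul, pow_two]
  simp_rw [h3] at h2
  rw [Fintype.card_sum] at h2
  set F : ℕ → ℝ := fun K => av (fun y : Y => ∏ i, w K (f i y)) with hF
  change |(∑ K ∈ S, F K) / S.card - 1| ≤ _ at h1
  change |(∑ K ∈ S, F K ^ 2) / S.card - 1| ≤ _ at h2
  change ∑ K ∈ S, (F K - 1) ^ 2 ≤ _
  have h6 : ∑ K ∈ S, (F K - 1) ^ 2 =
      (((∑ K ∈ S, F K ^ 2) / S.card - 1) - 2 * ((∑ K ∈ S, F K) / S.card - 1)) * S.card := by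
    have h7 : ∑ K ∈ S, (F K - 1) ^ 2 =
        ∑ K ∈ S, F K ^ 2 - 2 * ∑ K ∈ S, F K + S.card := by
      simp_rw [sub_sq]
      rw [sum_add_distrib, sum_sub_distrib, mul_sum]
      simp only [mul_one, one_pow, sum_const, nsmul_eq_mul]
    rw [h7]
    field_simp
    ring
  rw [h6]
  apply mul_le_mul_of_nonneg_right _ hX'.le
  have h8 := (abs_le.1 h1).1
  have h9 := (abs_le.1 h2).2
  have hm : (Fintype.card I : ℝ) * 2 ≤ M := by
    have : Fintype.card I * 2 ≤ M := by omega
    exact_mod_cast this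
  have hm0 : (0 : ℝ) ≤ Fintype.card I := by positivity
  have hLN : 0 ≤ (D.card * L) / N := by positivity
  have h10 : (Fintype.card I : ℝ) ^ 2 * (D.card * L) / N ≤ (M : ℝ) ^ 2 / 4 * ((D.card * L) / N) := by
    rw [mul_div_assoc]
    apply mul_le_mul_of_nonneg_right _ hLN
    nlinarith
  have h11 : ((Fintype.card I + Fintype.card I : ℕ) : ℝ) ^ 2 * (D.card * L) / N ≤
      (M : ℝ) ^ 2 * ((D.card * L) / N) := by
    rw [mul_div_assoc]
    apply mul_le_mul_of_nonneg_right _ hLN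
    push_cast
    nlinarith
  have h12 : 2 * (M : ℝ) ^ 2 * (D.card * L) / N = 2 * ((M : ℝ) ^ 2 * ((D.card * L) / N)) := by ring
  rw [h12]
  have h13 : 0 ≤ (M : ℝ) ^ 2 * ((D.card * L) / N) := by positivity
  linarith

open Classical in
theorem main {k : ℕ} (hk : 2 ≤ k) {N : ℕ} {w : ℕ → ZMod N → ℝ} {S : Finset ℕ}
    {D : Finset (ZMod N)} {M : ℕ} {η η' L : ℝ} [NeZero N]
    [Fact N.Prime] (hkN : k ≤ N) (h : Maj w S D M η' L) (hL : 1 ≤ L) (hη' : 0 ≤ η')
    (hX : S.Nonempty) (hM : 2 * (k * 2 ^ k) ≤ M) (hη : 0 < η)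
    (h1 : 3 * η' + 2 * (M : ℝ) ^ 2 * (D.card * L) / N ≤ η ^ 2)
    (h2 : 2 ^ (k * 2 ^ k) * (3 * η' + 2 * (M : ℝ) ^ 2 * (D.card * L) / N) ≤ η ^ 3) :
    ∑ K ∈ S, |av (w K) - 1| ≤ η * S.card ∧
    ((S.filter (fun K => ¬ LFk k N (w K) η)).card : ℝ) ≤ η * S.card := by
  have hX' : (0 : ℝ) < S.card := by exact_mod_cast hX.card_pos
  have hk1 : 1 ≤ k * 2 ^ k := Nat.mul_pos (by omega) (by positivity)
  constructor
  · have h3 := lemC h hL hη' hX (I := Unit) (by rw [Fintype.card_unit]; omega)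
      (fun _ => AddMonoidHom.id (ZMod N)) (fun i j hij => absurd (Subsingleton.elim i j) hij)
      (fun _ => ⟨1, by simp⟩)
    have h4 : ∀ K, av (fun y : ZMod N => ∏ i : Unit, w K (AddMonoidHom.id (ZMod N) y)) =
        av (w K) := by
      intro K
      congr 1
      funext y
      simp
    simp_rw [h4] at h3
    have h5 : ∀ K ∈ S, |av (w K) - 1| ≤
        η / 2 + (av (w K) - 1) ^ 2 / (2 * η) := by
      intro K _
      set x := av (w K) - 1
      have h6 : η / 2 + x ^ 2 / (2 * η) = (η ^ 2 + x ^ 2) / (2 * η) := by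
        field_simp
      rw [h6, le_div_iff₀ (by positivity)]
      nlinarith [sq_nonneg (|x| - η), sq_abs x]
    refine (sum_le_sum h5).trans ?_
    rw [sum_add_distrib, sum_const, nsmul_eq_mul, ← sum_div]
    have h6 : (∑ K ∈ S, (av (w K) - 1) ^ 2) / (2 * η) ≤ η / 2 * S.card := by
      rw [div_le_iff₀ (by positivity)]
      calc ∑ K ∈ S, (av (w K) - 1) ^ 2
          ≤ (3 * η' + 2 * (M : ℝ) ^ 2 * (D.card * L) / N) * S.card := h3
        _ ≤ η ^ 2 * S.card := mul_le_mul_of_nonneg_right h1 hX'.le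
        _ = η / 2 * S.card * (2 * η) := by ring
    linarith
  · -- the exceptional sets
    set TT : Finset (Finset (Fin k × Finset (Fin k))) :=
      univ.filter (fun T => ∀ t ∈ T, t.1 ∉ t.2) with hTT
    set bad : Finset (Fin k × Finset (Fin k)) → Finset ℕ := fun T =>
      S.filter (fun K => η < |av (fun y : Fin k → ZMod N × ZMod N =>
        ∏ t ∈ T, w K (Lf t.1 (sl t.2 y))) - 1|) with hbad
    have hsub : S.filter (fun K => ¬ LFk k N (w K) η) ⊆
        TT.biUnion bad := by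
      intro K hK
      rw [mem_filter] at hK
      have h3 := hK.2
      unfold LFk LF at h3
      push Not at h3
      obtain ⟨T, hT, h4⟩ := h3
      rw [mem_biUnion]
      exact ⟨T, by rw [hTT, mem_filter]; exact ⟨mem_univ _, hT⟩, by
        rw [hbad, mem_filter]; exact ⟨hK.1, h4⟩⟩
    have hone : ∀ T ∈ TT, ((bad T).card : ℝ) * 2 ^ (k * 2 ^ k) ≤ η * S.card := by
      intro T hT
      rw [hTT, mem_filter] at hT
      have hcT : Fintype.card T ≤ k * 2 ^ k := by
        rw [Fintype.card_coe]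
        refine (card_le_univ _).trans (le_of_eq ?_)
        rw [Fintype.card_prod, Fintype.card_fin, Fintype.card_finset, Fintype.card_fin]
      have h3 := lemC h hL hη' hX (I := T) (by omega)
        (fun t => (frm (t : Fin k × Finset (Fin k)) :
          (Fin k → ZMod N × ZMod N) →+ ZMod N))
        (fun t t' htt => frm_sep hkN t t' (hT.2 t t.2) (hT.2 t' t'.2)
          (fun h => htt (Subtype.ext h)))
        (fun t => frm_ne hk hkN t)
      have h4 : ∀ K, av (fun y : Fin k → ZMod N × ZMod N => ∏ t : T, w K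
          (frm (t : Fin k × Finset (Fin k)) y)) =
          av (fun y : Fin k → ZMod N × ZMod N =>
            ∏ t ∈ T, w K (Lf t.1 (sl t.2 y))) := by
        intro K
        congr 1
        funext y
        exact prod_coe_sort T (fun t => w K (Lf t.1 (sl t.2 y)))
      simp_rw [h4] at h3
      have h5 : ((bad T).card : ℝ) * η ^ 2 ≤ (3 * η' + 2 * (M : ℝ) ^ 2 * (D.card * L) / N) * S.card := by
        refine le_trans ?_ h3
        calc ((bad T).card : ℝ) * η ^ 2 = ∑ K ∈ bad T, η ^ 2 := by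
              rw [sum_const, nsmul_eq_mul]
          _ ≤ ∑ K ∈ bad T, (av (fun y : Fin k → ZMod N × ZMod N =>
            ∏ t ∈ T, w K (Lf t.1 (sl t.2 y))) - 1) ^ 2 := by
              apply sum_le_sum
              intro K hK
              rw [hbad, mem_filter] at hK
              rw [← sq_abs (av _ - 1)]
              exact pow_le_pow_left₀ hη.le hK.2.le 2
          _ ≤ _ := sum_le_sum_of_subset_of_nonneg (filter_subset _ _)
              (fun K _ _ => sq_nonneg _)
      have h6 : ((bad T).card : ℝ) * 2 ^ (k * 2 ^ k) * η ^ 2 ≤ η * S.card * η ^ 2 := by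
        calc ((bad T).card : ℝ) * 2 ^ (k * 2 ^ k) * η ^ 2
            = 2 ^ (k * 2 ^ k) * (((bad T).card : ℝ) * η ^ 2) := by ring
          _ ≤ 2 ^ (k * 2 ^ k) * ((3 * η' + 2 * (M : ℝ) ^ 2 * (D.card * L) / N) * S.card) :=
              mul_le_mul_of_nonneg_left h5 (by positivity)
          _ = (2 ^ (k * 2 ^ k) * (3 * η' + 2 * (M : ℝ) ^ 2 * (D.card * L) / N)) * S.card := by ring
          _ ≤ η ^ 3 * S.card := mul_le_mul_of_nonneg_right h2 hX'.le
          _ = η * S.card * η ^ 2 := by ring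
      exact le_of_mul_le_mul_right h6 (by positivity)
    have hTTc : TT.card ≤ 2 ^ (k * 2 ^ k) := by
      refine (card_le_univ _).trans (le_of_eq ?_)
      rw [Fintype.card_finset, Fintype.card_prod, Fintype.card_fin, Fintype.card_finset,
        Fintype.card_fin]
    have h7 : ((S.filter (fun K => ¬ LFk k N (w K) η)).card : ℝ) ≤
        ∑ T ∈ TT, ((bad T).card : ℝ) := by
      have := (card_le_card hsub).trans card_biUnion_le
      exact_mod_cast this
    have h8 : (∑ T ∈ TT, ((bad T).card : ℝ)) * 2 ^ (k * 2 ^ k) ≤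
        η * S.card * 2 ^ (k * 2 ^ k) := by
      rw [sum_mul]
      calc ∑ T ∈ TT, ((bad T).card : ℝ) * 2 ^ (k * 2 ^ k) ≤ ∑ T ∈ TT, η * S.card :=
            sum_le_sum hone
        _ = TT.card * (η * S.card) := by rw [sum_const, nsmul_eq_mul]
        _ ≤ 2 ^ (k * 2 ^ k) * (η * S.card) := by
            apply mul_le_mul_of_nonneg_right _ (by positivity)
            exact_mod_cast hTTc
        _ = η * S.card * 2 ^ (k * 2 ^ k) := by ring
    exact h7.trans (le_of_mul_le_mul_right h8 (by positivity))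

theorem mk : S_MKX := by
  classical
  intro k hk η hη
  set M : ℕ := 2 * (k * 2 ^ k) with hM
  set m₀ : ℝ := min (η ^ 2) (η ^ 3 / 2 ^ (k * 2 ^ k)) with hm₀
  have hm₀' : 0 < m₀ := lt_min (by positivity) (by positivity)
  have hd : (0 : ℝ) < 3 + 2 * (M : ℝ) ^ 2 := by positivity
  refine ⟨m₀ / (3 + 2 * (M : ℝ) ^ 2), by positivity, ?_⟩
  intro N _ hNp hkN S w T D hS hT hw0 hwT hTN hcor
  have hfact : Fact N.Prime := ⟨hNp⟩
  set η' : ℝ := m₀ / (3 + 2 * (M : ℝ) ^ 2) with hη'
  have hη'0 : 0 < η' := by positivity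
  have hmaj : Maj w S D M η' (T ^ M) := by
    refine ⟨hw0, ?_, ?_⟩
    · intro I _ hI u hu
      have e : I ≃ Fin (Fintype.card I) := Fintype.equivFin I
      have h1 := hcor (Fintype.card I) hI (u ∘ e.symm)
        (fun i j hij => hu _ _ (e.symm.injective.ne hij))
      have h2 : ∀ K, ∏ i, w K ((u ∘ e.symm) i) = ∏ i, w K (u i) := by
        intro K
        exact Equiv.prod_comp e.symm (fun i => w K (u i))
      simp_rw [h2] at h1
      exact h1
    · intro I _ hI u K hK
      calc ∏ i, w K (u i) ≤ ∏ _i : I, T :=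
            prod_le_prod (fun i _ => hw0 _ _) (fun i _ => hwT K hK _)
        _ = T ^ Fintype.card I := by rw [prod_const, card_univ]
        _ ≤ T ^ M := pow_le_pow_right₀ hT hI
  have hδ : 3 * η' + 2 * (M : ℝ) ^ 2 * (D.card * T ^ M) / N ≤ m₀ := by
    have h1 : 2 * (M : ℝ) ^ 2 * (D.card * T ^ M) / N ≤ 2 * (M : ℝ) ^ 2 * η' := by
      rw [mul_div_assoc]
      exact mul_le_mul_of_nonneg_left hTN (by positivity)
    have h2 : (3 + 2 * (M : ℝ) ^ 2) * η' = m₀ := by
      rw [hη']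
      field_simp
    calc 3 * η' + 2 * (M : ℝ) ^ 2 * (D.card * T ^ M) / N ≤ 3 * η' + 2 * (M : ℝ) ^ 2 * η' := by linarith
      _ = (3 + 2 * (M : ℝ) ^ 2) * η' := by ring
      _ = m₀ := h2
      _ ≤ m₀ := le_rfl
  have hT1 : 1 ≤ T ^ M := one_le_pow₀ hT
  have hmain := main hk hkN hmaj hT1 hη'0.le hS le_rfl hη
    (hδ.trans (min_le_left _ _)) (by
      have h1 : m₀ ≤ η ^ 3 / 2 ^ (k * 2 ^ k) := min_le_right _ _
      rw [le_div_iff₀ (by positivity)] at h1
      calc 2 ^ (k * 2 ^ k) * (3 * η' + 2 * (M : ℝ) ^ 2 * (D.card * T ^ M) / N) ≤ 2 ^ (k * 2 ^ k) * m₀ :=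
            mul_le_mul_of_nonneg_left hδ (by positivity)
        _ = m₀ * 2 ^ (k * 2 ^ k) := by ring
        _ ≤ η ^ 3 := h1)
  exact ⟨hmain.1, hmain.2⟩

end MK

/-- (MKX) -/
theorem mkX : S_MKX := MK.mk

end Pool.Agent.K3h89.SX
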