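import Pool.Agent.K3h89.SX.Stm

/-! Project SX (helper89), brick VX: the sieve product of `x (n - x)`. -/

set_option autoImplicit false

open Finset

namespace Pool.Agent.K3h89.SX

open Pool.Agent.TH423.SH (PS)
open Pool.Agent.Y677.RSZ (rt V)

/-- the reciprocals of the numbers composed of given primes -/
private lemma fact_le' (S : Finset ℕ) (hS : ∀ p ∈ S, p.Prime) (T : Finset ℕ)
    (hT : ∀ m ∈ T, m ≠ 0 ∧ ∀ p : ℕ, p.Prime → p ∣ m → p ∈ S) :
    ∑ m ∈ T, (m : ℝ)⁻¹ ≤ ∏ p ∈ S, (1 - (p : ℝ)⁻¹)⁻¹ := by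
  classical
  let f : ℕ →* ℝ :=
    { toFun := fun n => (n : ℝ)⁻¹
      map_one' := by simp
      map_mul' := fun a b => by simp [mul_comm] }
  have hf : ∀ {p : ℕ}, p.Prime → ‖f p‖ < 1 := by
    intro p hp
    show ‖((p : ℝ))⁻¹‖ < 1
    rw [norm_inv, Real.norm_natCast]
    exact inv_lt_one_of_one_lt₀ (by exact_mod_cast hp.one_lt)
  have h := (EulerProduct.summable_and_hasSum_factoredNumbers_prod_filter_prime_geometric hf S).2
  have hSf : S.filter Nat.Prime = S := filter_true_of_mem hS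
  rw [hSf] at h
  have hmem : ∀ m ∈ T, m ∈ Nat.factoredNumbers S := by
    intro m hm
    rw [Nat.mem_factoredNumbers']
    exact (hT m hm).2
  have h2 : ∑ m ∈ T.attach, f m.1 ≤ ∏ p ∈ S, (1 - f p)⁻¹ := by
    have h3 := sum_le_hasSum (T.attach.map ⟨fun m => (⟨m.1, hmem m.1 m.2⟩ : Nat.factoredNumbers S),
      fun a b hab => by
        have := congrArg Subtype.val hab
        exact Subtype.ext this⟩) (fun m _ => by
          show (0 : ℝ) ≤ ((m.1 : ℝ))⁻¹
          positivity) h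
    rw [sum_map] at h3
    exact h3
  rw [sum_attach T (fun m => f m)] at h2
  exact h2

private lemma log_le_prod (H : ℕ) (hH : 2 ≤ H) :
    Real.log H ≤ ∏ p ∈ PS 1 H, (1 - (p : ℝ)⁻¹)⁻¹ := by
  have h1 : Real.log H ≤ ∑ n ∈ Icc 1 H, (n : ℝ)⁻¹ := by
    have h := log_add_one_le_harmonic H
    have h2 : Real.log H ≤ Real.log (H + 1) :=
      Real.log_le_log (by exact_mod_cast (by omega : 0 < H)) (by linarith)
    rw [harmonic_eq_sum_Icc] at h
    push_cast at h
    exact h2.trans (by exact_mod_cast h)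
  refine h1.trans (fact_le' _ ?_ _ ?_)
  · intro p hp
    exact (mem_filter.1 hp).2.1
  · intro m hm
    rw [mem_Icc] at hm
    refine ⟨by omega, fun p hp hpm => ?_⟩
    unfold PS
    rw [mem_filter, mem_Icc]
    exact ⟨⟨hp.one_le, (Nat.le_of_dvd (by omega) hpm).trans hm.2⟩, hp,
      fun h => hp.one_lt.ne' (Nat.dvd_one.1 h)⟩

private lemma rt_ge_one (n p : ℕ) (hp : p.Prime) : 1 ≤ rt (Fl n) p := by
  unfold rt
  rw [Nat.one_le_iff_ne_zero, Ne, card_eq_zero, ← Ne, ← nonempty_iff_ne_empty]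
  exact ⟨0, by rw [mem_filter, mem_range]; exact ⟨hp.pos, by simp [Fl]⟩⟩

private lemma rt_ge_two (n p : ℕ) (hp : p.Prime) (hn : ¬ p ∣ n) : 2 ≤ rt (Fl n) p := by
  unfold rt
  have h0 : (0 : ℕ) ≠ n % p := fun h => hn (Nat.dvd_of_mod_eq_zero h.symm)
  rw [← card_pair h0]
  refine card_le_card fun x hx => ?_
  rw [mem_insert, mem_singleton] at hx
  rw [mem_filter, mem_range]
  rcases hx with rfl | rfl
  · exact ⟨hp.pos, by simp [Fl]⟩
  · refine ⟨Nat.mod_lt _ hp.pos, ?_⟩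
    unfold Fl
    refine Dvd.dvd.mul_left ?_ _
    rw [Int.natCast_mod]
    exact Int.dvd_self_sub_emod

private lemma rt_le (n p : ℕ) : rt (Fl n) p ≤ p := by
  unfold rt
  exact (card_filter_le _ _).trans (by simp)

theorem vX : S_VX := by
  classical
  refine ⟨2, two_pos, fun n H hn hev hH => ?_⟩
  have hlog : 0 < Real.log H := Real.log_pos (by exact_mod_cast hH)
  have hPS : ∀ p ∈ PS 1 H, p.Prime := fun p hp => (mem_filter.1 hp).2.1
  have hn0 : n ≠ 0 := by omega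
  -- the factors
  have hfac : ∀ p ∈ PS 1 H, 1 - (rt (Fl n) p : ℝ) / p ≤
      ((1 - (p : ℝ)⁻¹) ^ 2 * (if p ∣ n ∧ p ≠ 2 then ((p : ℝ) - 1) / ((p : ℝ) - 2) else 1)) *
        (if p = 2 then 2 else 1) := by
    intro p hp
    have hpp := hPS p hp
    have hp0 : (0 : ℝ) < p := by exact_mod_cast hpp.pos
    by_cases h2 : p = 2
    · subst h2
      have h1 : (1 : ℝ) ≤ rt (Fl n) 2 := by exact_mod_cast rt_ge_one n 2 Nat.prime_two
      rw [if_neg (by simp), if_pos rfl]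
      push_cast
      linarith
    · rw [if_neg h2, mul_one]
      have hp3 : (3 : ℝ) ≤ p := by
        have := hpp.two_le
        exact_mod_cast (by omega : 3 ≤ p)
      have e1 : (1 - (p : ℝ)⁻¹) = ((p : ℝ) - 1) / p := by field_simp
      by_cases hd : p ∣ n
      · rw [if_pos ⟨hd, h2⟩, e1]
        have h1 : (1 : ℝ) ≤ rt (Fl n) p := by exact_mod_cast rt_ge_one n p hpp
        have h3 : 1 - (rt (Fl n) p : ℝ) / p ≤ ((p : ℝ) - 1) / p := by
          rw [sub_div, div_self hp0.ne']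
          have := div_le_div_of_nonneg_right h1 hp0.le
          linarith
        refine h3.trans ?_
        rw [div_pow, div_mul_div_comm, div_le_div_iff₀ hp0 (by nlinarith)]
        have h4 : (0 : ℝ) ≤ ((p : ℝ) - 1) * p := by nlinarith
        nlinarith
      · rw [if_neg (fun h => hd h.1), mul_one, e1]
        have h1 : (2 : ℝ) ≤ rt (Fl n) p := by exact_mod_cast rt_ge_two n p hpp hd
        have h3 : 1 - (rt (Fl n) p : ℝ) / p ≤ ((p : ℝ) - 2) / p := by
          rw [sub_div, div_self hp0.ne']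
          have := div_le_div_of_nonneg_right h1 hp0.le
          linarith
        refine h3.trans ?_
        rw [div_pow, div_le_div_iff₀ hp0 (by positivity)]
        nlinarith
  have hnn : ∀ p ∈ PS 1 H, 0 ≤ 1 - (rt (Fl n) p : ℝ) / p := by
    intro p hp
    have hp0 : (0 : ℝ) < p := by exact_mod_cast (hPS p hp).pos
    rw [sub_nonneg, div_le_one hp0]
    exact_mod_cast rt_le n p
  have h1 : V (Fl n) 1 H ≤ ∏ p ∈ PS 1 H,
      (((1 - (p : ℝ)⁻¹) ^ 2 * (if p ∣ n ∧ p ≠ 2 then ((p : ℝ) - 1) / ((p : ℝ) - 2) else 1)) *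
        (if p = 2 then 2 else 1)) := prod_le_prod hnn hfac
  rw [prod_mul_distrib, prod_mul_distrib, prod_pow] at h1
  -- the three products
  have hq : 0 < ∏ p ∈ PS 1 H, (1 - (p : ℝ)⁻¹) := prod_pos fun p hp => by
    have : (1 : ℝ) < p := by exact_mod_cast (hPS p hp).one_lt
    have := inv_lt_one_of_one_lt₀ this
    linarith
  have h2 : ∏ p ∈ PS 1 H, (1 - (p : ℝ)⁻¹) ≤ 1 / Real.log H := by
    have h := log_le_prod H hH
    rw [prod_inv_distrib] at h
    rw [le_div_iff₀ hlog]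
    calc (∏ p ∈ PS 1 H, (1 - (p : ℝ)⁻¹)) * Real.log H
        ≤ (∏ p ∈ PS 1 H, (1 - (p : ℝ)⁻¹)) * (∏ p ∈ PS 1 H, (1 - (p : ℝ)⁻¹))⁻¹ :=
          mul_le_mul_of_nonneg_left h hq.le
      _ = 1 := mul_inv_cancel₀ hq.ne'
  have h3 : ∏ p ∈ PS 1 H, (if p = 2 then (2 : ℝ) else 1) ≤ 2 := by
    rw [prod_ite_eq' (PS 1 H) 2 (fun _ => (2 : ℝ))]
    split_ifs <;> norm_num
  have h3' : 0 ≤ ∏ p ∈ PS 1 H, (if p = 2 then (2 : ℝ) else 1) :=
    prod_nonneg fun p _ => by split_ifs <;> norm_num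
  have hone : ∀ p ∈ n.primeFactors.erase 2, 1 ≤ ((p : ℝ) - 1) / ((p : ℝ) - 2) := by
    intro p hp
    rw [mem_erase] at hp
    have hpp := Nat.prime_of_mem_primeFactors hp.2
    have hp3 : (3 : ℝ) ≤ p := by
      have := hpp.two_le
      exact_mod_cast (by omega : 3 ≤ p)
    rw [le_div_iff₀ (by linarith)]
    linarith
  have h4 : ∏ p ∈ PS 1 H, (if p ∣ n ∧ p ≠ 2 then ((p : ℝ) - 1) / ((p : ℝ) - 2) else 1) ≤ sg n := by
    rw [← prod_filter]
    unfold sg
    have hsub : (PS 1 H).filter (fun p => p ∣ n ∧ p ≠ 2) ⊆ n.primeFactors.erase 2 := by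
      intro p hp
      rw [mem_filter] at hp
      exact mem_erase.2 ⟨hp.2.2, Nat.mem_primeFactors.2 ⟨hPS p hp.1, hp.2.1, hn0⟩⟩
    exact Finset.prod_le_prod_of_subset_of_one_le hsub
      (fun p hp => zero_le_one.trans (hone p (hsub hp))) (fun p hp _ => hone p hp)
  have hsg : 0 ≤ sg n := prod_nonneg fun p hp => zero_le_one.trans (hone p hp)
  have h4' : 0 ≤ ∏ p ∈ PS 1 H, (if p ∣ n ∧ p ≠ 2 then ((p : ℝ) - 1) / ((p : ℝ) - 2) else 1) := by
    refine prod_nonneg fun p hp => ?_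
    split_ifs with h
    · exact zero_le_one.trans (hone p (mem_erase.2 ⟨h.2, Nat.mem_primeFactors.2
        ⟨hPS p hp, h.1, hn0⟩⟩))
    · norm_num
  calc V (Fl n) 1 H ≤ _ := h1
    _ ≤ (1 / Real.log H) ^ 2 * sg n * 2 := by
        refine mul_le_mul (mul_le_mul (pow_le_pow_left₀ hq.le h2 2) h4 h4' (by positivity)) h3 h3'
          (by positivity)
    _ = 2 * sg n / Real.log H ^ 2 := by ring

end Pool.Agent.K3h89.SX
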