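import Pool.Agent.K3h89.SX.Fin
import Pool.Agent.K3h89.SX.MKX
import Pool.Agent.K3h89.SX.LOCX
import Pool.Agent.K3h89.SX.MAJX
import Pool.Agent.K3h89.SX.ENGX
import Pool.Agent.K3h89.SX.BADX
import Pool.Agent.K3h89.SX.VX
import Pool.Agent.K3h73.SX.SYSX
import Pool.Agent.K3h73.SX.LARX
import Pool.Agent.K3h89.SZ.Top

/-!
# Project SX (helper89): the theorem
-/

set_option autoImplicit false

namespace Pool.Agent.K3h89.SX

/-- Szemerédi's theorem relative to sifted sets, for weak systems with few bad differences -/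
theorem engX_all : S_ENGX :=
  engX Pool.Agent.Y727.PSP.rs_all mkX
    (majX Pool.Agent.K3h89.SZ.c1P Pool.Agent.Y328.RSZ.sel locX Pool.Agent.K3h89.SZ.clsP Pool.Agent.Y677.RSZ.mer)

theorem fin_of_mom (h : S_MOM) : S_FINX :=
  finX engX_all Pool.Agent.K3h89.SZ.stripP Pool.Agent.K3h73.SX.sysX (badX h Pool.Agent.K3h73.SX.sysX)
    (Pool.Agent.K3h73.SX.larX Pool.Agent.K3h73.SX.sysX) vX

end Pool.Agent.K3h89.SX
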